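import Pool.Agent.Lib.MP_1a91b9_ntV.Base7

/-!
# The field `ℚ(√-7)`: the curves

`dE d0 d1 d2 S = (-1)^d0 a^d1 ab^d2 ∏ S`, `WE D : y² = x (x + D) (x + D ab⁴)`.
-/

set_option autoImplicit false
set_option linter.unusedSectionVars false

namespace Pool.Agent.Lib.MP_1a91b9_ntV.L

open NumberField Pool.Agent.Lib.MP_1a91b9_nuT Pool.Agent.Lib.MP_1a91b9_ntQ
  Pool.Agent.Lib.MP_1a91b9_ntV

noncomputable section

variable [CD]

/-- the curve `y² = x (x + D) (x + D ab⁴)` -/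
def WE (D : 𝓞 K) : WeierstrassCurve K :=
  ⟨0, (D : K) * (1 + ((tb : 𝓞 K) : K) ^ 4), 0, (D : K) ^ 2 * ((tb : 𝓞 K) : K) ^ 4, 0⟩

variable [hv : V7]

/-- the element of a set of primes and three exponents -/
def dE (d0 d1 d2 : ZMod 2) (S : Finset Pg7) : 𝓞 K :=
  (-1) ^ d0.val * ta ^ d1.val * tb ^ d2.val * DD S

theorem dE_ne (d0 d1 d2 : ZMod 2) (S : Finset Pg7) : dE d0 d1 d2 S ≠ 0 :=
  mul_ne_zero (mul_ne_zero (mul_ne_zero (pow_ne_zero _ (neg_ne_zero.2 one_ne_zero))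
    (pow_ne_zero _ ta_ne)) (pow_ne_zero _ tb_ne)) (DD_ne S)

end

end Pool.Agent.Lib.MP_1a91b9_ntV.L
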