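import Pool.Agent.Lib.MP_1a91b9_ntL.Tw

/-!
# Local factors: good reduction at a place of norm `2`, and at a place of norm `7`

`loc_two`: `C • W = y² + x y = x³ + α x² + β x` with integral `α` and a unit `β`, at a place of norm `2`: the
local polynomial is `1 + X + 2 X²` if `α` is in the maximal ideal and `1 - X + 2 X²` if not.
`loc_sym`: the reduction is `y² = x (x + δ) (x + 4 δ)` at a place of norm `7`: `1 + 7 X²`.
-/

set_option autoImplicit false
set_option linter.unusedSectionVars false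

namespace Pool.Agent.Lib.MP_1a91b9_ntV.L

open NumberField IsDedekindDomain WeierstrassCurve WithZero Pool.Agent.Lib.MP_1a91b9_nuX
  Pool.Agent.Lib.MP_1a91b9_nuX.GL Pool.Agent.Lib.MP_1a91b9_nt

/-! ### the points -/

section
variable {κ : Type*} [Field κ]

private theorem two_zero {s : κ} (h2 : (2 : κ) = 0) : s + s = 0 := by
  rw [← two_mul, h2, zero_mul]

/-- the points over the field with two elements, `α = 0` -/
theorem sp_two_zero (h2 : (2 : κ) = 0) :
    (Sp 2 (⟨1, 0, 0, 1, 0⟩ : WeierstrassCurve κ)).ncard = 3 := by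
  have e : Sp 2 (⟨1, 0, 0, 1, 0⟩ : WeierstrassCurve κ) = {(0, 0), (1, 0), (1, 1)} := by
    ext ⟨x, y⟩
    simp only [Sp, Set.mem_ofPred_eq, Set.mem_insert_iff, Set.mem_singleton_iff, Prod.mk.injEq]
    constructor
    · rintro ⟨hx, hy, h⟩
      have hx' : x = 0 ∨ x = 1 := by
        have h3 : x * (x - 1) = 0 := by linear_combination hx
        rcases mul_eq_zero.1 h3 with h4 | h4
        · exact Or.inl h4
        · exact Or.inr (sub_eq_zero.1 h4)
      have hy' : y = 0 ∨ y = 1 := by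
        have h3 : y * (y - 1) = 0 := by linear_combination hy
        rcases mul_eq_zero.1 h3 with h4 | h4
        · exact Or.inl h4
        · exact Or.inr (sub_eq_zero.1 h4)
      rcases hx' with rfl | rfl
      · left
        refine ⟨rfl, ?_⟩
        have h5 : y ^ 2 = 0 := by linear_combination h
        exact pow_eq_zero_iff two_ne_zero |>.1 h5
      · right
        rcases hy' with rfl | rfl
        · exact Or.inl ⟨rfl, rfl⟩
        · exact Or.inr ⟨rfl, rfl⟩
    · rintro (⟨rfl, rfl⟩ | ⟨rfl, rfl⟩ | ⟨rfl, rfl⟩)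
      · simp
      · refine ⟨by simp, by simp, ?_⟩
        linear_combination -h2
      · refine ⟨by simp, by simp, ?_⟩
        ring
  rw [e]
  rw [Set.ncard_insert_of_notMem, Set.ncard_pair]
  · simp
  · simp

/-- the points over the field with two elements, `α = 1` -/
theorem sp_two_one (h2 : (2 : κ) = 0) :
    (Sp 2 (⟨1, 1, 0, 1, 0⟩ : WeierstrassCurve κ)).ncard = 1 := by
  have e : Sp 2 (⟨1, 1, 0, 1, 0⟩ : WeierstrassCurve κ) = {(0, 0)} := by
    ext ⟨x, y⟩
    simp only [Sp, Set.mem_ofPred_eq, Set.mem_singleton_iff, Prod.mk.injEq]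
    constructor
    · rintro ⟨hx, hy, h⟩
      have hx' : x = 0 ∨ x = 1 := by
        have h3 : x * (x - 1) = 0 := by linear_combination hx
        rcases mul_eq_zero.1 h3 with h4 | h4
        · exact Or.inl h4
        · exact Or.inr (sub_eq_zero.1 h4)
      rcases hx' with rfl | rfl
      · refine ⟨rfl, ?_⟩
        have h5 : y ^ 2 = 0 := by linear_combination h
        exact pow_eq_zero_iff two_ne_zero |>.1 h5
      · exfalso
        have h5 : (1 : κ) = 0 := by linear_combination -h + hy + (y - 1) * h2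
        exact one_ne_zero h5
    · rintro ⟨rfl, rfl⟩
      simp
  rw [e]
  exact Set.ncard_singleton _

/-- the symmetry of the curve modulo `7` -/
theorem sp_seven (h7 : (7 : κ) = 0) [IsAlgClosed κ] {δ : κ} (hδ : δ ^ 7 = δ) :
    (Sp 7 (⟨0, 5 * δ, 0, 4 * δ ^ 2, 0⟩ : WeierstrassCurve κ)).ncard =
      (Sm 7 (⟨0, 5 * δ, 0, 4 * δ ^ 2, 0⟩ : WeierstrassCurve κ)).ncard := by
  obtain ⟨i, hi⟩ := IsAlgClosed.exists_pow_nat_eq (-1 : κ) (n := 2) (by norm_num)
  have hi0 : i ≠ 0 := by
    rintro rfl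
    rw [zero_pow two_ne_zero] at hi
    exact one_ne_zero (neg_eq_zero.1 hi.symm)
  have hi7 : i ^ 7 = -i := by
    have e : i ^ 7 = (i ^ 2) ^ 3 * i := by ring
    rw [e, hi]
    ring
  have hinj : Function.Injective (fun P : κ × κ => (-δ - P.1, i * P.2)) := by
    rintro ⟨a, b⟩ ⟨c, d⟩ h
    rw [Prod.mk.injEq] at h ⊢
    exact ⟨by linear_combination -h.1, mul_left_cancel₀ hi0 h.2⟩
  have hadd : ∀ x y : κ, (x + y) ^ 7 = x ^ 7 + y ^ 7 := fun x y => by
    linear_combination (x ^ 6 * y + 3 * x ^ 5 * y ^ 2 + 5 * x ^ 4 * y ^ 3 + 5 * x ^ 3 * y ^ 4 +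
      3 * x ^ 2 * y ^ 5 + x * y ^ 6) * h7
  have e : Sm 7 (⟨0, 5 * δ, 0, 4 * δ ^ 2, 0⟩ : WeierstrassCurve κ) =
      (fun P : κ × κ => (-δ - P.1, i * P.2)) ''
        Sp 7 (⟨0, 5 * δ, 0, 4 * δ ^ 2, 0⟩ : WeierstrassCurve κ) := by
    ext ⟨x, y⟩
    simp only [Sp, Sm, Set.mem_image, Set.mem_ofPred_eq, Prod.mk.injEq, Prod.exists]
    constructor
    · rintro ⟨hx, hy, h⟩
      refine ⟨-δ - x, -(i * y), ⟨?_, ?_, ?_⟩, by ring, ?_⟩
      · have e1 : (-δ - x) ^ 7 = -(δ + x) ^ 7 := by ring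
        rw [e1, hadd, hδ, hx]
        ring
      · have e1 : (-(i * y)) ^ 7 = -(i ^ 7 * y ^ 7) := by ring
        rw [e1, hi7, hy]
        ring
      · have e1 : y ^ 2 = x ^ 3 + 5 * δ * x ^ 2 + 4 * δ ^ 2 * x := by linear_combination h
        linear_combination y ^ 2 * hi - e1 - (δ * x ^ 2 + δ ^ 2 * x) * h7
      · linear_combination -y * hi
    · rintro ⟨a, b, ⟨ha, hb, h⟩, rfl, rfl⟩
      refine ⟨?_, ?_, ?_⟩
      · have e1 : (-δ - a) ^ 7 = -(δ + a) ^ 7 := by ring
        rw [e1, hadd, hδ, ha]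
        ring
      · rw [mul_pow, hi7, hb]
        ring
      · have e1 : b ^ 2 = a ^ 3 + 5 * δ * a ^ 2 + 4 * δ ^ 2 * a := by linear_combination h
        linear_combination b ^ 2 * hi - e1 - (δ * a ^ 2 + δ ^ 2 * a) * h7
  rw [e, Set.ncard_image_of_injective _ hinj]

end

/-! ### the local polynomials -/

section
variable {N : Type*} [Field N] [NumberField N] {v : HeightOneSpectrum (𝓞 N)}
  {V : ValuationSubring (AlgebraicClosure N)}

/-- the norm of the place is zero in the residue field -/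
theorem norm_zero (hV : Abv v V) : ((Ideal.absNorm v.asIdeal : ℕ) : RF V) = 0 := by
  have h1 : ((Ideal.absNorm v.asIdeal : ℕ) : 𝓞 N) ∈ v.asIdeal := Ideal.absNorm_mem _
  have h2 := (GM.val_lt_mem _).2 h1
  have h3 := (abv_lt hV _).2 h2
  rw [← map_natCast (IsLocalRing.residue V), IsLocalRing.residue_eq_zero_iff,
    ValuationSubring.valuation_lt_one_iff]
  have e1 : algebraMap N (AlgebraicClosure N) (((Ideal.absNorm v.asIdeal : ℕ) : 𝓞 N) : N) =
      ((Ideal.absNorm v.asIdeal : ℕ) : AlgebraicClosure N) := by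
    have e2 : algebraMap (𝓞 N) N ((Ideal.absNorm v.asIdeal : ℕ) : 𝓞 N) =
        ((Ideal.absNorm v.asIdeal : ℕ) : N) := map_natCast _ _
    exact (congrArg (algebraMap N (AlgebraicClosure N)) e2).trans (map_natCast _ _)
  rw [e1] at h3
  exact h3

/-- **Good reduction at a place of norm `2`.** -/
theorem loc_two (hN : Ideal.absNorm v.asIdeal = 2) (W : WeierstrassCurve N) (C : VariableChange N)
    {α β : N} (hC : C • W = ⟨1, α, 0, β, 0⟩) (hα : v.valuation N α ≤ 1)
    (hβ : v.valuation N β = 1) :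
    (v.valuation N α < 1 → locPoly W v = 1 + Polynomial.X + 2 * Polynomial.X ^ 2) ∧
      (v.valuation N (α - 1) < 1 → locPoly W v = 1 - Polynomial.X + 2 * Polynomial.X ^ 2) := by
  obtain ⟨V, hV⟩ := exists_abv (Ω := AlgebraicClosure N) v
  have h2V : (2 : RF V) = 0 := by
    have h := norm_zero hV
    rw [hN] at h
    exact_mod_cast h
  have h2 : v.valuation N 2 < 1 := by
    have h1 : ((Ideal.absNorm v.asIdeal : ℕ) : 𝓞 N) ∈ v.asIdeal := Ideal.absNorm_mem _
    rw [hN] at h1
    have h2 := (GM.val_lt_mem _).2 h1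
    have e2 : algebraMap (𝓞 N) N ((2 : ℕ) : 𝓞 N) = 2 := by
      rw [map_natCast]
      norm_num
    have e3 : v.valuation N (algebraMap (𝓞 N) N ((2 : ℕ) : 𝓞 N)) < 1 := h2
    rwa [e2] at e3
  have hg : GM.GoodW (v.valuation N) (C • W) := by
    rw [hC]
    refine ⟨⟨(map_one _).le, hα, ?_, hβ.le, ?_⟩, ?_⟩
    · exact (map_zero (v.valuation N)).trans_le zero_le
    · exact (map_zero (v.valuation N)).trans_le zero_le
    · have e1 : (⟨1, α, 0, β, 0⟩ : WeierstrassCurve N).Δ =
          β ^ 2 + 2 * (2 * (β ^ 2 * (2 * α + 4 * α ^ 2 - 16 * β))) := by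
        simp only [WeierstrassCurve.Δ, WeierstrassCurve.b₂, WeierstrassCurve.b₄,
          WeierstrassCurve.b₆, WeierstrassCurve.b₈]
        ring
      have hn : ∀ n : ℕ, v.valuation N (n : N) ≤ 1 := fun n => by
        have h := v.valuation_le_one (K := N) (n : 𝓞 N)
        have e : algebraMap (𝓞 N) N (n : 𝓞 N) = n := map_natCast (algebraMap (𝓞 N) N) n
        rw [← e]
        exact h
      have hm : ∀ {x y : N}, v.valuation N x ≤ 1 → v.valuation N y ≤ 1 →
          v.valuation N (x * y) ≤ 1 := fun hx hy => by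
        rw [map_mul]
        exact mul_le_one' hx hy
      have hp : ∀ {x : N} (n : ℕ), v.valuation N x ≤ 1 → v.valuation N (x ^ n) ≤ 1 :=
        fun n hx => by
          rw [map_pow]
          exact pow_le_one₀ zero_le hx
      have h2' : v.valuation N 2 ≤ 1 := h2.le
      have h4 : v.valuation N 4 ≤ 1 := by exact_mod_cast hn 4
      have h16 : v.valuation N 16 ≤ 1 := by exact_mod_cast hn 16
      have hr : v.valuation N (2 * (2 * (β ^ 2 * (2 * α + 4 * α ^ 2 - 16 * β)))) < 1 := by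
        rw [map_mul]
        refine mul_lt_one_of_lt_of_le h2 (hm h2' (hm (hp 2 hβ.le) ?_))
        exact Valuation.map_sub_le _ (Valuation.map_add_le _ (hm h2' hα) (hm h4 (hp 2 hα)))
          (hm h16 hβ.le)
      rw [e1, Valuation.map_add_eq_of_lt_left]
      · rw [map_pow, hβ, one_pow]
      · rw [map_pow, hβ, one_pow]
        exact hr
  obtain ⟨-, hl⟩ := locPoly_good hV W hg
  rw [hC, hN] at hl
  obtain ⟨a, ha⟩ : ∃ a, a = rd V (algebraMap N (AlgebraicClosure N) α) := ⟨_, rfl⟩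
  obtain ⟨b, hb⟩ : ∃ b, b = rd V (algebraMap N (AlgebraicClosure N) β) := ⟨_, rfl⟩
  have hred : rdW V ((⟨1, α, 0, β, 0⟩ : WeierstrassCurve N).map
      (algebraMap N (AlgebraicClosure N))) = ⟨1, a, 0, b, 0⟩ := by
    refine WeierstrassCurve.ext ?_ ha.symm ?_ hb.symm ?_
    · change rd V (algebraMap N (AlgebraicClosure N) 1) = 1
      rw [map_one, rd_one]
    · change rd V (algebraMap N (AlgebraicClosure N) 0) = 0
      rw [map_zero, rd_zero]
    · change rd V (algebraMap N (AlgebraicClosure N) 0) = 0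
      rw [map_zero, rd_zero]
  have hb1 : b = 1 := by
    have h3 : b ^ 2 = b := by
      have h := rd_fix hV hβ.le
      rw [hN, ← hb] at h
      exact h
    have h4 : b ≠ 0 := by
      rw [hb, Ne, CntB_rd_zero hV hβ.le, hβ]
      exact lt_irrefl _
    have h5 : b * (b - 1) = 0 := by linear_combination h3
    exact sub_eq_zero.1 ((mul_eq_zero.1 h5).resolve_left h4)
  rw [hred, hb1] at hl
  constructor
  · intro h
    have ha0 : a = 0 := by rw [ha, CntB_rd_zero hV hα]; exact h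
    rw [ha0, sp_two_zero h2V] at hl
    rw [hl]
    have e1 : Polynomial.C (((2 : ℕ) : ℤ) - ((3 : ℕ) : ℤ)) = (-1 : Polynomial ℤ) := by
      rw [show ((2 : ℕ) : ℤ) - ((3 : ℕ) : ℤ) = -1 by norm_num, Polynomial.C_neg, Polynomial.C_1]
    have e2 : Polynomial.C (((2 : ℕ) : ℤ)) = (2 : Polynomial ℤ) := by
      rw [show (((2 : ℕ) : ℤ)) = 2 by norm_num]
      exact Polynomial.C_ofNat 2
    rw [e1, e2]
    ring
  · intro h
    have ha1 : a = 1 := by
      have h3 := (rd_eq (V := V) (x := algebraMap N (AlgebraicClosure N) α) (y := 1)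
        ((hV α).2 hα) (by rw [map_one])).2 (by
          rw [← map_one (algebraMap N (AlgebraicClosure N)), ← map_sub]
          exact (abv_lt hV _).2 h)
      rw [ha, h3, rd_one]
    rw [ha1, sp_two_one h2V] at hl
    rw [hl]
    have e1 : Polynomial.C (((2 : ℕ) : ℤ) - ((1 : ℕ) : ℤ)) = (1 : Polynomial ℤ) := by
      rw [show ((2 : ℕ) : ℤ) - ((1 : ℕ) : ℤ) = 1 by norm_num, Polynomial.C_1]
    have e2 : Polynomial.C (((2 : ℕ) : ℤ)) = (2 : Polynomial ℤ) := by
      rw [show (((2 : ℕ) : ℤ)) = 2 by norm_num]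
      exact Polynomial.C_ofNat 2
    rw [e1, e2]
    ring

/-- **Good reduction at a place of norm `7`.** -/
theorem loc_seven (hN : Ideal.absNorm v.asIdeal = 7) (W : WeierstrassCurve N) {D t : 𝓞 N}
    (hW : W = ⟨0, (D : N) * (1 + (t : N)), 0, (D : N) ^ 2 * (t : N), 0⟩) (hD : D ∉ v.asIdeal)
    (ht : t - 4 ∈ v.asIdeal) : locPoly W v = 1 + 7 * Polynomial.X ^ 2 := by
  obtain ⟨V, hV⟩ := exists_abv (Ω := AlgebraicClosure N) v
  have h7V : (7 : RF V) = 0 := by
    have h := norm_zero hV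
    rw [hN] at h
    exact_mod_cast h
  have hcl : IsAlgClosed (RF V) := rd_closed
  have hle : ∀ x : 𝓞 N, v.valuation N (x : N) ≤ 1 := fun x => v.valuation_le_one x
  have hVle : ∀ x : 𝓞 N, V.valuation (algebraMap N (AlgebraicClosure N) (x : N)) ≤ 1 := fun x =>
    (hV _).2 (hle x)
  have hvD : v.valuation N (D : N) = 1 := by
    refine le_antisymm (hle D) (not_lt.1 fun h => hD ?_)
    exact (GM.val_lt_mem _).1 h
  obtain ⟨δ, hδ⟩ : ∃ δ, δ = rd V (algebraMap N (AlgebraicClosure N) (D : N)) := ⟨_, rfl⟩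
  have hδ7 : δ ^ 7 = δ := by
    have h := rd_fix hV (hle D)
    rw [hN, ← hδ] at h
    exact h
  have hδ0 : δ ≠ 0 := by
    rw [hδ, Ne, CntB_rd_zero hV (hle D), hvD]
    exact lt_irrefl _
  have ht4 : rd V (algebraMap N (AlgebraicClosure N) (t : N)) = 4 := by
    have h3 : v.valuation N ((t : N) - 4) < 1 := by
      have h4 := (GM.val_lt_mem _).2 ht
      have e1 : algebraMap (𝓞 N) N (t - 4) = (t : N) - 4 := by
        rw [map_sub, map_ofNat]
      have h5 : v.valuation N (algebraMap (𝓞 N) N (t - 4)) < 1 := h4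
      rwa [e1] at h5
    have h4V : V.valuation (4 : AlgebraicClosure N) ≤ 1 := by
      have h := hVle 4
      have e1 : algebraMap N (AlgebraicClosure N) ((4 : 𝓞 N) : N) = 4 := by
        have e2 : algebraMap (𝓞 N) N (4 : 𝓞 N) = 4 := map_ofNat _ 4
        exact (congrArg (algebraMap N (AlgebraicClosure N)) e2).trans (map_ofNat _ 4)
      rwa [e1] at h
    have h4' : rd V (4 : AlgebraicClosure N) = 4 := by
      have h1V : V.valuation (1 : AlgebraicClosure N) ≤ 1 := (map_one _).le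
      have h2V : V.valuation (1 + 1 : AlgebraicClosure N) ≤ 1 := Valuation.map_add_le _ h1V h1V
      have e1 : (4 : AlgebraicClosure N) = (1 + 1) + (1 + 1) := by norm_num
      rw [e1, rd_add h2V h2V, rd_add h1V h1V, rd_one]
      norm_num
    rw [← h4']
    refine (rd_eq (hVle t) h4V).2 ?_
    have e1 : algebraMap N (AlgebraicClosure N) (t : N) - 4 =
        algebraMap N (AlgebraicClosure N) ((t : N) - 4) := by
      rw [map_sub, map_ofNat]
    rw [e1]
    exact (abv_lt hV _).2 h3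
  have hred : rdW V (W.map (algebraMap N (AlgebraicClosure N))) =
      ⟨0, 5 * δ, 0, 4 * δ ^ 2, 0⟩ := by
    have h1V : V.valuation (1 : AlgebraicClosure N) ≤ 1 := (map_one _).le
    refine WeierstrassCurve.ext ?_ ?_ ?_ ?_ ?_
    · rw [hW]
      change rd V (algebraMap N (AlgebraicClosure N) 0) = 0
      rw [map_zero, rd_zero]
    · rw [hW]
      change rd V (algebraMap N (AlgebraicClosure N) ((D : N) * (1 + (t : N)))) = 5 * δ
      rw [map_mul, map_add, map_one, rd_mul (hVle D) (Valuation.map_add_le _ h1V (hVle t)),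
        rd_add h1V (hVle t), rd_one, ht4, ← hδ]
      ring
    · rw [hW]
      change rd V (algebraMap N (AlgebraicClosure N) 0) = 0
      rw [map_zero, rd_zero]
    · rw [hW]
      change rd V (algebraMap N (AlgebraicClosure N) ((D : N) ^ 2 * (t : N))) = 4 * δ ^ 2
      rw [map_mul, map_pow, rd_mul (by rw [map_pow]; exact pow_le_one₀ zero_le (hVle D)) (hVle t),
        rd_pow (hVle D), ht4, ← hδ]
      ring
    · rw [hW]
      change rd V (algebraMap N (AlgebraicClosure N) 0) = 0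
      rw [map_zero, rd_zero]
  -- the good model
  have hg : GM.GoodW (v.valuation N) ((1 : VariableChange N) • W) := by
    rw [one_smul]
    have hI : GM.IntW (v.valuation N) W := by
      rw [hW]
      refine ⟨?_, ?_, ?_, ?_, ?_⟩
      · exact (map_zero (v.valuation N)).trans_le zero_le
      · have e1 : (D : N) * (1 + (t : N)) = ((D * (1 + t) : 𝓞 N) : N) := by
          change _ = algebraMap (𝓞 N) N (D * (1 + t))
          rw [map_mul, map_add, map_one]
        rw [e1]
        exact hle _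
      · exact (map_zero (v.valuation N)).trans_le zero_le
      · have e1 : (D : N) ^ 2 * (t : N) = ((D ^ 2 * t : 𝓞 N) : N) := by
          change _ = algebraMap (𝓞 N) N (D ^ 2 * t)
          rw [map_mul, map_pow]
        rw [e1]
        exact hle _
      · exact (map_zero (v.valuation N)).trans_le zero_le
    refine ⟨hI, ?_⟩
    have e1 : W.Δ = ((16 * D ^ 6 * (t ^ 2 * (t - 1) ^ 2) : 𝓞 N) : N) := by
      rw [hW]
      simp only [WeierstrassCurve.Δ, WeierstrassCurve.b₂, WeierstrassCurve.b₄,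
        WeierstrassCurve.b₆, WeierstrassCurve.b₈]
      change _ = algebraMap (𝓞 N) N (16 * D ^ 6 * (t ^ 2 * (t - 1) ^ 2))
      simp only [map_mul, map_pow, map_sub, map_one, map_ofNat]
      ring
    rw [e1]
    refine le_antisymm (hle _) (not_lt.1 fun h => ?_)
    have h3 : (16 * D ^ 6 * (t ^ 2 * (t - 1) ^ 2) : 𝓞 N) ∈ v.asIdeal := (GM.val_lt_mem _).1 h
    have h7 : (7 : 𝓞 N) ∈ v.asIdeal := by
      have h8 : ((Ideal.absNorm v.asIdeal : ℕ) : 𝓞 N) ∈ v.asIdeal := Ideal.absNorm_mem _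
      rw [hN] at h8
      exact_mod_cast h8
    have hone : (1 : 𝓞 N) ∉ v.asIdeal := fun h => v.isPrime.ne_top ((Ideal.eq_top_iff_one _).2 h)
    -- `t = 4` modulo `v`
    have h4 : (16 * D ^ 6 * 144 : 𝓞 N) ∈ v.asIdeal := by
      have e2 : (16 * D ^ 6 * 144 : 𝓞 N) = 16 * D ^ 6 * (t ^ 2 * (t - 1) ^ 2) -
          (t - 4) * (16 * D ^ 6 * (t ^ 3 + 2 * t ^ 2 + 9 * t + 36)) := by ring
      rw [e2]
      exact sub_mem h3 (v.asIdeal.mul_mem_right _ ht)
    have h5 : (D ^ 6 : 𝓞 N) ∈ v.asIdeal := by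
      have e2 : (D ^ 6 : 𝓞 N) = 16 * D ^ 6 * 144 - 7 * (329 * D ^ 6) := by ring
      rw [e2]
      exact sub_mem h4 (v.asIdeal.mul_mem_right _ h7)
    exact hD (v.isPrime.mem_of_pow_mem _ h5)
  obtain ⟨-, hl⟩ := locPoly_good hV W hg
  rw [one_smul, hN, hred] at hl
  obtain ⟨-, -, htwo⟩ := card_two hV W (by have := hg.toIntW; rwa [one_smul] at this)
  rw [hN, hred, ← sp_seven h7V hδ7] at htwo
  have h3 : (Sp 7 (⟨0, 5 * δ, 0, 4 * δ ^ 2, 0⟩ : WeierstrassCurve (RF V))).ncard = 7 := by omega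
  rw [h3] at hl
  rw [hl]
  have e1 : Polynomial.C (((7 : ℕ) : ℤ) - ((7 : ℕ) : ℤ)) = (0 : Polynomial ℤ) := by
    rw [sub_self, Polynomial.C_0]
  have e2 : Polynomial.C (((7 : ℕ) : ℤ)) = (7 : Polynomial ℤ) := by
    rw [show (((7 : ℕ) : ℤ)) = 7 by norm_num]
    exact Polynomial.C_ofNat 7
  rw [e1, e2]
  ring

end

end Pool.Agent.Lib.MP_1a91b9_ntV.L
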