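import Pool.Agent.Lib.MP_1a91b9_ntV.L.Hc7
import Pool.Agent.Lib.MP_1a91b9_ntV.L.Two7
import Pool.Agent.Lib.MP_1a91b9_ntV.C.TamM
import Pool.Agent.Lib.MP_1a91b9_ntL.TwK

/-!
# The field `ℚ(√-7)`: the local factors of `WE D` at the places over `2` and at the bad places
-/

set_option autoImplicit false
set_option linter.unusedSectionVars false

namespace Pool.Agent.Lib.MP_1a91b9_ntV.L

open NumberField IsDedekindDomain WeierstrassCurve WithZero Pool.Agent.Lib.MP_1a91b9_nuT
  Pool.Agent.Lib.MP_1a91b9_nuX Pool.Agent.Lib.MP_1a91b9_ntV Pool.Agent.Lib.MP_1a91b9_nt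
open Pool.Agent.Lib.MP_1a91b9_ntV.C (cw eb Near Q2 NoDown noDown_near q2_completion valC cw_bc
  cw_swap good_change)
open Pool.Agent.Lib.MP_1a91b9_ntH.C.TamT (Itg)

noncomputable section

/-! ### no good model -/

section gen

variable {N : Type*} [Field N] [NumberField N] {v : HeightOneSpectrum (𝓞 N)}

/-- no good model at a place over `2` -/
theorem no_good_near {e : Fin 3 → N} (h2 : v.valuation N 2 = exp (-1 : ℤ))
    (hr : ∀ x : 𝓞 N, x ∈ v.asIdeal ∨ x - 1 ∈ v.asIdeal) (hn : Near (v.valuation N) e)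
    (hd : v.valuation N (cw e).Δ < 1) :
    ¬ ∃ C : VariableChange N, GM.GoodW (v.valuation N) (C • cw e) := by
  rintro ⟨C, hC⟩
  have hq := q2_completion (v := v) h2 hr
  have hn' : Near (Valued.v : Valuation (v.adicCompletion N) ℤᵐ⁰) (eb (v.adicCompletion N) e) := by
    obtain ⟨i, j, k⟩ := hn
    refine ⟨fun m => ?_, ?_, ?_⟩
    · rw [eb, valC]
      exact i m
    · rw [eb, eb, eb, ← map_sub, ← map_sub, valC, valC]
      exact j
    · rw [eb, eb, ← map_sub, ← map_one (algebraMap N (v.adicCompletion N)), ← map_sub, valC, valC]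
      exact k
  have hH := noDown_near hq hn'
  have e1 : (cw e).map (algebraMap N (v.adicCompletion N)) = cw (eb (v.adicCompletion N) e) :=
    cw_bc _ e
  have e2 : C.map (algebraMap N (v.adicCompletion N)) • cw (eb (v.adicCompletion N) e) =
      (C • cw e).map (algebraMap N (v.adicCompletion N)) := by
    rw [← e1]
    exact WeierstrassCurve.map_variableChange _ _ _
  refine hH (C.map (algebraMap N (v.adicCompletion N))) ?_ ?_
  · rw [e2]
    refine ⟨?_, ?_, ?_, ?_, ?_⟩
    · rw [WeierstrassCurve.map_a₁, valC]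
      exact hC.a1
    · rw [WeierstrassCurve.map_a₂, valC]
      exact hC.a2
    · rw [WeierstrassCurve.map_a₃, valC]
      exact hC.a3
    · rw [WeierstrassCurve.map_a₄, valC]
      exact hC.a4
    · rw [WeierstrassCurve.map_a₆, valC]
      exact hC.a6
  · have e3 : (((C.map (algebraMap N (v.adicCompletion N))).u : (v.adicCompletion N)ˣ) :
        v.adicCompletion N) = algebraMap N (v.adicCompletion N) (C.u : N) := rfl
    rw [e3, valC]
    have h3 := hC.disc
    rw [variableChange_Δ, Units.val_inv_eq_inv_val, map_mul, map_pow, map_inv₀] at h3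
    by_contra hge
    push Not at hge
    have h4 : ((v.valuation N (C.u : N))⁻¹) ^ 12 ≤ 1 :=
      pow_le_one₀ zero_le (inv_le_one_of_one_le₀ hge)
    have h5 : ((v.valuation N (C.u : N))⁻¹) ^ 12 * v.valuation N (cw e).Δ < 1 := by
      calc _ ≤ 1 * v.valuation N (cw e).Δ := mul_le_mul_left h4 _
        _ < 1 := by rw [one_mul]; exact hd
    exact absurd h3 h5.ne

end gen

variable [CD] [hv : V7]

theorem WE_cw (D : 𝓞 K) : (WE D : WeierstrassCurve K) =
    cw ![0, -(D : K), -((D : K) * ((tb : 𝓞 K) : K) ^ 4)] := by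
  simp only [cw, WE, Matrix.cons_val_zero, Matrix.cons_val_one, Matrix.cons_val]
  congr 1 <;> ring

theorem WE_cw' (D : 𝓞 K) : (WE D : WeierstrassCurve K) =
    cw ![-(D : K), 0, -((D : K) * ((tb : 𝓞 K) : K) ^ 4)] := by
  simp only [cw, WE, Matrix.cons_val_zero, Matrix.cons_val_one, Matrix.cons_val]
  congr 1 <;> ring

/-- the invariant is integral -/
theorem WE_j (v : HeightOneSpectrum (𝓞 K)) (D : 𝓞 K) :
    v.valuation K ((WE D : WeierstrassCurve K).c₄ ^ 3) ≤
      v.valuation K (WE D : WeierstrassCurve K).Δ := by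
  rw [WE_c4, map_mul]
  have h : v.valuation K (-3375 : K) ≤ 1 := by
    have e : (-3375 : K) = algebraMap (𝓞 K) K (-3375) := by
      rw [map_neg, map_ofNat]
    rw [e]
    exact v.valuation_le_one _
  exact mul_le_of_le_one_left' h

/-- **Bad reduction at the odd places.** -/
theorem loc_bad_odd {v : HeightOneSpectrum (𝓞 K)} (h2 : (2 : 𝓞 K) ∉ v.asIdeal) {D : 𝓞 K}
    (hD : ¬ IsSquare (v.valuation K (D : K))) : locPoly (WE D) v = 1 := by
  refine GL.locPoly_bad v (WE D) (WE_j v D) ?_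
  rintro ⟨C, hC⟩
  apply hD
  have hD0 : (D : K) ≠ 0 := by
    intro h
    rw [h, map_zero] at hD
    exact hD ⟨0, (mul_zero _).symm⟩
  have h3 := hC.disc
  have e2 : ((2 ^ 12 * D ^ 6 : 𝓞 K) : K) = 2 ^ 12 * (D : K) ^ 6 := by
    change algebraMap (𝓞 K) K (2 ^ 12 * D ^ 6) = _
    rw [map_mul, map_pow, map_pow, map_ofNat]
  have hv2 : v.valuation K (2 : K) = 1 := by
    have e : (2 : K) = algebraMap (𝓞 K) K 2 := (map_ofNat _ 2).symm
    rw [e]
    exact (v.valuation_eq_one_iff_notMem).2 h2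
  rw [variableChange_Δ, WE_disc, e2, map_mul, map_mul, map_pow, map_pow, map_pow, hv2, one_pow,
    one_mul] at h3
  have hnz : ∀ x : K, x ≠ 0 → ∃ n : ℤ, v.valuation K x = exp n := fun x hx =>
    ⟨log (v.valuation K x), (exp_log ((Valuation.ne_zero_iff _).2 hx)).symm⟩
  obtain ⟨n1, h4⟩ := hnz _ (Units.ne_zero C.u⁻¹)
  obtain ⟨n, h6⟩ := hnz _ hD0
  rw [h4, h6, ← exp_nsmul, ← exp_nsmul, ← exp_add, ← exp_zero, exp_inj] at h3
  simp only [nsmul_eq_mul, Nat.cast_ofNat] at h3
  rw [h6]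
  refine ⟨exp (-n1), ?_⟩
  rw [← exp_add, exp_inj]
  omega

/-- the valuation of an element which is divisible by `q` and not by `q²` -/
theorem val_exact {v : HeightOneSpectrum (𝓞 K)} {q : 𝓞 K} (hq : v.asIdeal = Ideal.span {q})
    {x : 𝓞 K} {n : ℕ} (h1 : q ^ n ∣ x) (h2 : ¬ q ^ (n + 1) ∣ x) :
    v.valuation K (x : K) = exp (-(n : ℤ)) := by
  have key : ∀ m : ℕ, v.valuation K (x : K) ≤ exp (-(m : ℤ)) ↔ q ^ m ∣ x := by
    intro m
    have h := v.intValuation_le_pow_iff_dvd x m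
    rw [hq, Ideal.span_singleton_pow, Ideal.dvd_span_singleton, Ideal.mem_span_singleton] at h
    rw [← h]
    have e : v.valuation K (x : K) = v.intValuation x := v.valuation_of_algebraMap x
    rw [e]
  refine le_antisymm ((key n).2 h1) (not_lt.1 fun h => h2 ((key (n + 1)).1 ?_))
  have hx0 : v.valuation K (x : K) ≤ exp (-((n : ℤ)) - 1) := by
    rcases eq_or_ne (v.valuation K (x : K)) 0 with h0 | h0
    · rw [h0]
      exact zero_le
    · rw [← exp_log h0] at h ⊢
      rw [exp_lt_exp] at h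
      rw [exp_le_exp]
      omega
  have e : -(((n + 1 : ℕ)) : ℤ) = -((n : ℤ)) - 1 := by push_cast; ring
  rw [e]
  exact hx0

theorem val_le {v : HeightOneSpectrum (𝓞 K)} {q : 𝓞 K} (hq : v.asIdeal = Ideal.span {q})
    {x : 𝓞 K} {n : ℕ} (h1 : q ^ n ∣ x) : v.valuation K (x : K) ≤ exp (-(n : ℤ)) := by
  have h := v.intValuation_le_pow_iff_dvd x n
  rw [hq, Ideal.span_singleton_pow, Ideal.dvd_span_singleton, Ideal.mem_span_singleton] at h
  have e : v.valuation K (x : K) = v.intValuation x := v.valuation_of_algebraMap x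
  rw [e]
  exact h.2 h1

/-- **The local factor in the case of good reduction at a place over `2`.** -/
theorem loc_good_two {v : HeightOneSpectrum (𝓞 K)} (hN : Ideal.absNorm v.asIdeal = 2)
    (h2 : v.valuation K 2 = exp (-1 : ℤ)) {W : WeierstrassCurve K} {e : Fin 3 → K}
    (hW : W = cw e) {s t : 𝓞 K} (hs : e 0 - e 1 = (s : K)) (ht : e 1 - e 2 = (t : K))
    (hs1 : v.valuation K (s : K) = 1) (ht4 : v.valuation K (t : K) = exp (-4 : ℤ)) :
    (v.valuation K ((s + 1 : 𝓞 K) : K) ≤ exp (-3 : ℤ) →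
      locPoly W v = 1 + Polynomial.X + 2 * Polynomial.X ^ 2) ∧
    (v.valuation K ((s + 5 : 𝓞 K) : K) ≤ exp (-3 : ℤ) →
      locPoly W v = 1 - Polynomial.X + 2 * Polynomial.X ^ 2) := by
  have h20 : (2 : K) ≠ 0 := two_ne_zero
  have h4 : v.valuation K 4 = exp (-2 : ℤ) := by
    have e4 : (4 : K) = 2 * 2 := by norm_num
    rw [e4, map_mul, h2, ← exp_add]
    rfl
  have h16 : v.valuation K 16 = exp (-4 : ℤ) := by
    have e4 : (16 : K) = 4 * 4 := by norm_num
    rw [e4, map_mul, h4, ← exp_add]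
    rfl
  have e1 : ((s + 1 : 𝓞 K) : K) = (s : K) + 1 := by
    change algebraMap (𝓞 K) K (s + 1) = _
    rw [map_add, map_one]
  have e5 : ((s + 5 : 𝓞 K) : K) = (s : K) + 5 := by
    change algebraMap (𝓞 K) K (s + 5) = _
    rw [map_add, map_ofNat]
  have hC := good_change h20 e
  rw [hs, ht, ← hW] at hC
  have hb : v.valuation K (-((s : K) * (t : K)) / 16) = 1 := by
    rw [map_div₀, Valuation.map_neg, map_mul, hs1, ht4, h16, one_mul, div_self exp_ne_zero]
  have ht2 : v.valuation K (t : K) ≤ exp (-3 : ℤ) := by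
    rw [ht4]
    exact exp_le_exp.2 (by norm_num)
  have hlt : ∀ x : K, v.valuation K x ≤ exp (-3 : ℤ) → v.valuation K (x / 4) < 1 := by
    intro x hx
    rw [map_div₀, h4]
    refine (div_lt_one₀ exp_pos).2 (lt_of_le_of_lt hx ?_)
    exact exp_lt_exp.2 (by norm_num)
  have hle : ∀ x : K, v.valuation K x ≤ exp (-2 : ℤ) → v.valuation K (x / 4) ≤ 1 := by
    intro x hx
    rw [map_div₀, h4]
    exact (div_le_one₀ exp_pos).2 hx
  constructor
  · intro h
    rw [e1] at h
    have h3 : v.valuation K (-((s : K) + 1) + (t : K)) ≤ exp (-3 : ℤ) := by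
      refine Valuation.map_add_le _ ?_ ht2
      rw [Valuation.map_neg]
      exact h
    have ha := hlt _ h3
    exact (loc_two hN W _ hC ha.le hb).1 ha
  · intro h
    rw [e5] at h
    have h3 : v.valuation K (-((s : K) + 1) + (t : K)) ≤ exp (-2 : ℤ) := by
      have e6 : -((s : K) + 1) + (t : K) = -((s : K) + 5) + (4 + (t : K)) := by ring
      rw [e6]
      refine Valuation.map_add_le _ ?_ (Valuation.map_add_le _ h4.le ?_)
      · rw [Valuation.map_neg]
        exact h.trans (exp_le_exp.2 (by norm_num))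
      · exact ht2.trans (exp_le_exp.2 (by norm_num))
    refine (loc_two hN W _ hC (hle _ h3) hb).2 ?_
    have e6 : (-((s : K) + 1) + (t : K)) / 4 - 1 = (-((s : K) + 5) + (t : K)) / 4 := by
      field_simp
      ring
    rw [e6]
    refine hlt _ (Valuation.map_add_le _ ?_ ht2)
    rw [Valuation.map_neg]
    exact h

/-! ### the place `a` -/

/-- the place of `a` -/
def pla : HeightOneSpectrum (𝓞 K) where
  asIdeal := Ideal.span {ta}
  isPrime := (Ideal.span_singleton_prime ta_ne).2 ta_prime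
  ne_bot := by
    rw [Ne, Ideal.span_singleton_eq_bot]
    exact ta_ne

/-- the place of the conjugate of `a` -/
def plb : HeightOneSpectrum (𝓞 K) where
  asIdeal := Ideal.span {tb}
  isPrime := (Ideal.span_singleton_prime tb_ne).2 tb_prime
  ne_bot := by
    rw [Ne, Ideal.span_singleton_eq_bot]
    exact tb_ne

theorem pla_I : (pla : HeightOneSpectrum (𝓞 K)).asIdeal = Ideal.span {ta} := rfl

theorem plb_I : (plb : HeightOneSpectrum (𝓞 K)).asIdeal = Ideal.span {tb} := rfl

theorem cj_ta : cj (ta : 𝓞 K) = tb := by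
  have h := cj_coords 0 1
  rw [hv.tr] at h
  have e : ((0 : ℤ) : 𝓞 K) + ((1 : ℤ) : 𝓞 K) * ta = ta := by push_cast; ring
  rw [e] at h
  rw [h]
  push_cast
  ring

theorem cj_tb : cj (tb : 𝓞 K) = ta := by
  rw [← cj_ta, cj_cj]

theorem cj_rr : cj (rr : 𝓞 K) = -rr := by
  rw [rr, map_sub, map_mul, map_ofNat, map_one, cj_ta]
  ring

theorem norm_pla : Ideal.absNorm (pla : HeightOneSpectrum (𝓞 K)).asIdeal = 2 := by
  have h := mul_cj (ta : 𝓞 K)
  rw [cj_ta, ta_mul_tb] at h
  rw [pla_I]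
  exact_mod_cast h.symm

theorem norm_plb : Ideal.absNorm (plb : HeightOneSpectrum (𝓞 K)).asIdeal = 2 := by
  have h := mul_cj (tb : 𝓞 K)
  rw [cj_tb, mul_comm, ta_mul_tb] at h
  rw [plb_I]
  exact_mod_cast h.symm

theorem two_pla : (pla : HeightOneSpectrum (𝓞 K)).valuation K 2 = exp (-1 : ℤ) := by
  have h := val_exact (v := pla) (q := ta) pla_I (x := 2) (n := 1)
    ⟨tb, by rw [pow_one]; exact ta_mul_tb.symm⟩ (by
      rw [ta2_dvd, map_ofNat]
      decide)
  have e : (((2 : 𝓞 K)) : K) = 2 := map_ofNat (algebraMap (𝓞 K) K) 2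
  rw [e] at h
  exact h

theorem two_plb : (plb : HeightOneSpectrum (𝓞 K)).valuation K 2 = exp (-1 : ℤ) := by
  have h := val_exact (v := plb) (q := tb) plb_I (x := 2) (n := 1)
    ⟨ta, by rw [pow_one, mul_comm]; exact ta_mul_tb.symm⟩ (by
      rw [tb2_dvd, map_ofNat]
      decide)
  have e : (((2 : 𝓞 K)) : K) = 2 := map_ofNat (algebraMap (𝓞 K) K) 2
  rw [e] at h
  exact h

theorem res_pla (x : 𝓞 K) : x ∈ (pla : HeightOneSpectrum (𝓞 K)).asIdeal ∨
    x - 1 ∈ (pla : HeightOneSpectrum (𝓞 K)).asIdeal := by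
  rw [pla_I, Ideal.mem_span_singleton, Ideal.mem_span_singleton, ta_dvd, ta_dvd, map_sub, map_one]
  generalize ra x = u
  revert u
  decide

theorem res_plb (x : 𝓞 K) : x ∈ (plb : HeightOneSpectrum (𝓞 K)).asIdeal ∨
    x - 1 ∈ (plb : HeightOneSpectrum (𝓞 K)).asIdeal := by
  rw [plb_I, Ideal.mem_span_singleton, Ideal.mem_span_singleton, tb_dvd, tb_dvd, map_sub, map_one]
  generalize rb x = u
  revert u
  decide

theorem coeK_mul (x y : 𝓞 K) : ((x * y : 𝓞 K) : K) = (x : K) * (y : K) :=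
  map_mul (algebraMap (𝓞 K) K) _ _

theorem coeK_pow (x : 𝓞 K) (n : ℕ) : ((x ^ n : 𝓞 K) : K) = (x : K) ^ n :=
  map_pow (algebraMap (𝓞 K) K) _ _

theorem coeK_neg (x : 𝓞 K) : ((-x : 𝓞 K) : K) = -(x : K) :=
  map_neg (algebraMap (𝓞 K) K) _

theorem coeK_sub (x y : 𝓞 K) : ((x - y : 𝓞 K) : K) = (x : K) - (y : K) :=
  map_sub (algebraMap (𝓞 K) K) _ _

theorem coeK_one : ((1 : 𝓞 K) : K) = 1 := map_one (algebraMap (𝓞 K) K)

theorem tb4_eq : (tb : 𝓞 K) ^ 4 = 1 - ta ^ 4 := by
  linear_combination (2 * ta ^ 2 - 2 * ta) * ta_sq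

theorem disc_lt {v : HeightOneSpectrum (𝓞 K)} (h2 : v.valuation K 2 = exp (-1 : ℤ)) (D : 𝓞 K) :
    v.valuation K (WE D : WeierstrassCurve K).Δ < 1 := by
  have e2 : ((2 ^ 12 * D ^ 6 : 𝓞 K) : K) = 2 ^ 12 * ((D ^ 6 : 𝓞 K) : K) := by
    change algebraMap (𝓞 K) K (2 ^ 12 * D ^ 6) = _ * algebraMap (𝓞 K) K (D ^ 6)
    rw [map_mul, map_pow, map_ofNat]
  rw [WE_disc, e2, map_mul, map_pow, h2]
  refine mul_lt_one_of_lt_of_le ?_ (v.valuation_le_one _)
  rw [← exp_nsmul, ← exp_zero, exp_lt_exp]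
  norm_num

/-- **Bad reduction at `a`.** -/
theorem loc_a_bad {D : 𝓞 K} (h1 : ¬ ta ^ 2 ∣ D + 1) (h2 : ¬ ta ^ 2 ∣ D) :
    locPoly (WE D) pla = 1 := by
  refine GL.locPoly_bad pla (WE D) (WE_j pla D) ?_
  have hd := disc_lt two_pla D
  rw [WE_cw] at hd ⊢
  refine no_good_near two_pla res_pla ⟨?_, ?_, ?_⟩ hd
  · intro i
    have hle : ∀ x : 𝓞 K, (pla : HeightOneSpectrum (𝓞 K)).valuation K (x : K) ≤ 1 := fun x =>
      HeightOneSpectrum.valuation_le_one _ x
    fin_cases i
    · exact (map_zero ((pla : HeightOneSpectrum (𝓞 K)).valuation K)).trans_le zero_le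
    · change (pla : HeightOneSpectrum (𝓞 K)).valuation K (-(D : K)) ≤ 1
      rw [Valuation.map_neg]
      exact hle D
    · change (pla : HeightOneSpectrum (𝓞 K)).valuation K (-((D : K) * ((tb : 𝓞 K) : K) ^ 4)) ≤ 1
      rw [Valuation.map_neg, ← coeK_pow, ← coeK_mul]
      exact hle _
  · change (pla : HeightOneSpectrum (𝓞 K)).valuation K (-(D : K) - -((D : K) *
      ((tb : 𝓞 K) : K) ^ 4)) = exp (-4) * (pla : HeightOneSpectrum (𝓞 K)).valuation K (0 - -(D : K))
    have e1 : -(D : K) - -((D : K) * ((tb : 𝓞 K) : K) ^ 4) = -(((ta ^ 4 : 𝓞 K) : K) * (D : K)) := by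
      rw [← coeK_pow, tb4_eq, coeK_sub, coeK_one]
      ring
    have e2 : (pla : HeightOneSpectrum (𝓞 K)).valuation K ((ta ^ 4 : 𝓞 K) : K) = exp (-4) := by
      have h := val_exact (v := pla) (q := ta) pla_I (x := ta) (n := 1) (by rw [pow_one])
        (by
          rw [ta2_dvd, ra_ta]
          decide)
      rw [coeK_pow, map_pow, h, ← exp_nsmul]
      rfl
    rw [e1, Valuation.map_neg, map_mul, e2, zero_sub, neg_neg]
  · change (pla : HeightOneSpectrum (𝓞 K)).valuation K (0 - -(D : K) - 1) ≤ exp (-2) ∨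
      (pla : HeightOneSpectrum (𝓞 K)).valuation K (0 - -(D : K)) = exp (-1)
    have e1 : (0 - -(D : K) - 1 : K) = ((D - 1 : 𝓞 K) : K) := by
      rw [coeK_sub, coeK_one]
      ring
    have e2 : (0 - -(D : K) : K) = (D : K) := by ring
    rw [e1, e2]
    have key : ∀ u : ZMod 8, 2 * (u + 1) ≠ 0 → 2 * u ≠ 0 → 2 * (u - 1) = 0 ∨ 4 * u = 0 := by decide
    rw [ta2_dvd, map_add, map_one] at h1
    have h2' := h2
    rw [ta2_dvd] at h2'
    rcases key _ h1 h2' with h3 | h3
    · left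
      have h4 : ta ^ 2 ∣ D - 1 := by
        rw [ta2_dvd, map_sub, map_one]
        exact h3
      exact val_le (v := pla) pla_I h4
    · right
      exact val_exact (v := pla) pla_I (n := 1) (by
        rw [pow_one, ta_dvd]
        exact h3) h2

/-- **Bad reduction at the conjugate of `a`.** -/
theorem loc_b_bad {D : 𝓞 K} (h1 : ¬ tb ^ 2 ∣ D - 1) (h2 : ¬ tb ^ 2 ∣ D) :
    locPoly (WE D) plb = 1 := by
  refine GL.locPoly_bad plb (WE D) (WE_j plb D) ?_
  have hd := disc_lt two_plb D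
  rw [WE_cw'] at hd ⊢
  refine no_good_near two_plb res_plb ⟨?_, ?_, ?_⟩ hd
  · intro i
    have hle : ∀ x : 𝓞 K, (plb : HeightOneSpectrum (𝓞 K)).valuation K (x : K) ≤ 1 := fun x =>
      HeightOneSpectrum.valuation_le_one _ x
    fin_cases i
    · change (plb : HeightOneSpectrum (𝓞 K)).valuation K (-(D : K)) ≤ 1
      rw [Valuation.map_neg]
      exact hle D
    · exact (map_zero ((plb : HeightOneSpectrum (𝓞 K)).valuation K)).trans_le zero_le
    · change (plb : HeightOneSpectrum (𝓞 K)).valuation K (-((D : K) * ((tb : 𝓞 K) : K) ^ 4)) ≤ 1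
      rw [Valuation.map_neg, ← coeK_pow, ← coeK_mul]
      exact hle _
  · change (plb : HeightOneSpectrum (𝓞 K)).valuation K (0 - -((D : K) *
      ((tb : 𝓞 K) : K) ^ 4)) = exp (-4) * (plb : HeightOneSpectrum (𝓞 K)).valuation K (-(D : K) - 0)
    have e1 : 0 - -((D : K) * ((tb : 𝓞 K) : K) ^ 4) = ((tb ^ 4 : 𝓞 K) : K) * (D : K) := by
      rw [coeK_pow]
      ring
    have e2 : (plb : HeightOneSpectrum (𝓞 K)).valuation K ((tb ^ 4 : 𝓞 K) : K) = exp (-4) := by
      have h := val_exact (v := plb) (q := tb) plb_I (x := tb) (n := 1) (by rw [pow_one])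
        (by
          rw [tb2_dvd, rb_tb]
          decide)
      rw [coeK_pow, map_pow, h, ← exp_nsmul]
      rfl
    rw [e1, map_mul, e2, sub_zero, Valuation.map_neg]
  · change (plb : HeightOneSpectrum (𝓞 K)).valuation K (-(D : K) - 0 - 1) ≤ exp (-2) ∨
      (plb : HeightOneSpectrum (𝓞 K)).valuation K (-(D : K) - 0) = exp (-1)
    have e1 : (-(D : K) - 0 - 1 : K) = ((-(D + 1) : 𝓞 K) : K) := by
      change _ = algebraMap (𝓞 K) K (-(D + 1))
      rw [map_neg, map_add, map_one]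
      ring
    have e2 : (-(D : K) - 0 : K) = -(D : K) := by ring
    rw [e1, e2, Valuation.map_neg]
    have key : ∀ u : ZMod 8, 2 * (u - 1) ≠ 0 → 2 * u ≠ 0 → 2 * (u + 1) = 0 ∨ 4 * u = 0 := by decide
    rw [tb2_dvd, map_sub, map_one] at h1
    have h2' := h2
    rw [tb2_dvd] at h2'
    rcases key _ h1 h2' with h3 | h3
    · left
      have h4 : tb ^ 2 ∣ -(D + 1) := by
        rw [dvd_neg, tb2_dvd, map_add, map_one]
        exact h3
      exact val_le (v := plb) plb_I h4
    · right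
      exact val_exact (v := plb) plb_I (n := 1) (by
        rw [pow_one, tb_dvd]
        exact h3) h2

/-- **Good reduction at `a`.** -/
theorem loc_a_good (D : 𝓞 K) :
    (ra D = 7 → locPoly (WE D) pla = 1 + Polynomial.X + 2 * Polynomial.X ^ 2) ∧
    (ra D = 3 → locPoly (WE D) pla = 1 - Polynomial.X + 2 * Polynomial.X ^ 2) := by
  have hu : 4 * ra D = 4 → (pla : HeightOneSpectrum (𝓞 K)).valuation K (D : K) = 1 := by
    intro h
    have h3 := val_exact (v := pla) pla_I (x := D) (n := 0) (by rw [pow_zero]; exact one_dvd _) (by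
      rw [zero_add, pow_one, ta_dvd, h]
      decide)
    rw [h3]
    rfl
  have ht : (pla : HeightOneSpectrum (𝓞 K)).valuation K ((ta ^ 4 : 𝓞 K) : K) = exp (-4) := by
    have h := val_exact (v := pla) (q := ta) pla_I (x := ta) (n := 1) (by rw [pow_one])
      (by
        rw [ta2_dvd, ra_ta]
        decide)
    rw [coeK_pow, map_pow, h, ← exp_nsmul]
    rfl
  have key : 4 * ra D = 4 → _ := fun h => loc_good_two norm_pla two_pla (WE_cw D) (s := D)
    (t := -(ta ^ 4 * D)) (by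
      change (0 : K) - -(D : K) = _
      ring) (by
      change -(D : K) - -((D : K) * ((tb : 𝓞 K) : K) ^ 4) = _
      rw [← coeK_pow, tb4_eq, coeK_sub, coeK_one, coeK_neg, coeK_mul]
      ring) (hu h) (by
      rw [coeK_neg, Valuation.map_neg, coeK_mul, map_mul, ht, hu h, mul_one])
  constructor
  · intro h
    refine (key (by rw [h]; decide)).1 (val_le (v := pla) pla_I ?_)
    rw [ta3_dvd, map_add, map_one, h]
    decide
  · intro h
    refine (key (by rw [h]; decide)).2 (val_le (v := pla) pla_I ?_)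
    rw [ta3_dvd, map_add, map_ofNat, h]
    decide

/-- **Good reduction at the conjugate of `a`.** -/
theorem loc_b_good (D : 𝓞 K) :
    (rb D = 1 → locPoly (WE D) plb = 1 + Polynomial.X + 2 * Polynomial.X ^ 2) ∧
    (rb D = 5 → locPoly (WE D) plb = 1 - Polynomial.X + 2 * Polynomial.X ^ 2) := by
  have hu : 4 * rb D = 4 → (plb : HeightOneSpectrum (𝓞 K)).valuation K (D : K) = 1 := by
    intro h
    have h3 := val_exact (v := plb) plb_I (x := D) (n := 0) (by rw [pow_zero]; exact one_dvd _) (by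
      rw [zero_add, pow_one, tb_dvd, h]
      decide)
    rw [h3]
    rfl
  have ht : (plb : HeightOneSpectrum (𝓞 K)).valuation K ((tb ^ 4 : 𝓞 K) : K) = exp (-4) := by
    have h := val_exact (v := plb) (q := tb) plb_I (x := tb) (n := 1) (by rw [pow_one])
      (by
        rw [tb2_dvd, rb_tb]
        decide)
    rw [coeK_pow, map_pow, h, ← exp_nsmul]
    rfl
  have key : 4 * rb D = 4 → _ := fun h => loc_good_two norm_plb two_plb (WE_cw' D) (s := -D)
    (t := tb ^ 4 * D) (by
      change -(D : K) - 0 = _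
      rw [coeK_neg]
      ring) (by
      change (0 : K) - -((D : K) * ((tb : 𝓞 K) : K) ^ 4) = _
      rw [coeK_mul, coeK_pow]
      ring) (by rw [coeK_neg, Valuation.map_neg, hu h]) (by
      rw [coeK_mul, map_mul, ht, hu h, mul_one])
  constructor
  · intro h
    refine (key (by rw [h]; decide)).1 (val_le (v := plb) plb_I ?_)
    rw [tb3_dvd, map_add, map_neg, map_one, h]
    decide
  · intro h
    refine (key (by rw [h]; decide)).2 (val_le (v := plb) plb_I ?_)
    rw [tb3_dvd, map_add, map_neg, map_ofNat, h]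
    decide

end

end Pool.Agent.Lib.MP_1a91b9_ntV.L
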