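import Pool.Agent.Lib.MP_1a91b9_nuT.BaseK
import Pool.Agent.Lib.MP_1a91b9_nuX.UF.Main
import Pool.Agent.Lib.MP_1a91b9_ntV.A.V7

/-!
# The field `ℚ(√-7)` and its data of complex multiplication

`K7 = ℚ(√-7)` inside `ℂ`, `t7 = (1 + √-7) / 2` in `𝓞 K7`. The instance `cd7` is the class `CD` of
`MP_1a91b9_nuT` for the curve `y² = x³ - 560 x - 6272`, the instance `v7` the class `V7`.
-/

set_option autoImplicit false

namespace Pool.Agent.Lib.MP_1a91b9_ntV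

open NumberField Polynomial Pool.Agent.Lib.MP_1a91b9_nuT Pool.Agent.Lib.MP_1a91b9_nuX.UF

noncomputable section

/-- The field `ℚ(√-7)`. -/
def K7 : Type := ↥(KK 1 2 good7.pos)

instance fieldK7 : Field K7 := inferInstanceAs (Field ↥(KK 1 2 good7.pos))
instance numberFieldK7 : NumberField K7 := inferInstanceAs (NumberField ↥(KK 1 2 good7.pos))

/-- The embedding of `K7` in `ℂ`. -/
def emb7 : K7 →ₐ[ℚ] ℂ := embKK 1 2 good7.pos

/-- The element `(1 + √-7) / 2` of `𝓞 K7`. -/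
def t7 : 𝓞 K7 := taK 1 2 good7.pos

theorem emb7_t7 : emb7 (t7 : K7) = tt 1 2 := rfl

theorem gen7 (a : 𝓞 K7) : ∃ m n : ℤ, a = (m : 𝓞 K7) + (n : 𝓞 K7) * t7 := gen_KK good7 a

theorem quad7 : t7 ^ 2 = ((1 : ℤ) : 𝓞 K7) * t7 - ((2 : ℤ) : 𝓞 K7) := quad_KK good7.pos

theorem t7_sq : t7 ^ 2 = t7 - 2 := by
  rw [quad7]
  push_cast
  ring

instance pidK7 : IsPrincipalIdealRing (𝓞 K7) := pid_KK good7

theorem im7 : (emb7 (t7 : K7)).im ≠ 0 := im_KK good7.pos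

/-- The lattice of the integers of `ℚ(√-7)` as a period pair. -/
abbrev PP7 : PeriodPair := mkPP (emb7 (t7 : K7)) im7

theorem exists_Om7 : ∃ Om : ℂ, Om ≠ 0 ∧ PP7.g₂ = -4 * ((-560 : ℤ) : ℂ) * Om ^ 4 ∧
    PP7.g₃ = -4 * ((-6272 : ℤ) : ℂ) * Om ^ 6 :=
  hasOm7 (A := -560) (B := -6272) (by norm_num) (by norm_num)

/-- The period. -/
def Om7 : ℂ := exists_Om7.choose

theorem Om7_ne : Om7 ≠ 0 := exists_Om7.choose_spec.1

theorem g2_7 : PP7.g₂ = -4 * ((-560 : ℤ) : ℂ) * Om7 ^ 4 := exists_Om7.choose_spec.2.1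

theorem g3_7 : PP7.g₃ = -4 * ((-6272 : ℤ) : ℂ) * Om7 ^ 6 := exists_Om7.choose_spec.2.2

/-- the number `(1 + √-7) / 2` -/
def z7 : ℂ := emb7 (t7 : K7)

theorem z7_sq : z7 ^ 2 = z7 - 2 := by
  have h := congrArg (fun x : 𝓞 K7 => emb7 (x : K7)) t7_sq
  have e1 : emb7 ((t7 ^ 2 : 𝓞 K7) : K7) = z7 ^ 2 := by
    change emb7 (algebraMap (𝓞 K7) K7 (t7 ^ 2)) = _
    rw [map_pow, map_pow]
    rfl
  have e2 : emb7 ((t7 - 2 : 𝓞 K7) : K7) = z7 - 2 := by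
    change emb7 (algebraMap (𝓞 K7) K7 (t7 - 2)) = _
    rw [map_sub, map_sub, map_ofNat, map_ofNat]
    rfl
  exact e1.symm.trans (h.trans e2)

theorem z7_ne : z7 ≠ 0 := by
  intro h
  have h1 := z7_sq
  rw [h] at h1
  norm_num at h1

theorem emb7_ne : emb7 (t7 : K7) ≠ 0 := z7_ne

/-- The multiplication by `t7` on `℘`. -/
theorem mulP7 (z : ℂ) (hz : z ∉ PP7.lattice) (hz' : emb7 (t7 : K7) * z ∉ PP7.lattice) :
    PP7.weierstrassP z ^ 2 + (16 - 4 * z7) * Om7 ^ 2 * PP7.weierstrassP z +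
        (112 - 336 * z7) * Om7 ^ 4 =
      PP7.weierstrassP (emb7 (t7 : K7) * z) *
        (z7 ^ 2 * (PP7.weierstrassP z + (16 - 4 * z7) * Om7 ^ 2)) := by
  have hD : (C (z7 ^ 2) * (X + C ((16 - 4 * z7) * Om7 ^ 2))).leadingCoeff =
      emb7 (t7 : K7) ^ 2 := by
    rw [leadingCoeff_mul, leadingCoeff_C, leadingCoeff_X_add_C, mul_one]
    rfl
  have hN : (X ^ 2 + C ((16 - 4 * z7) * Om7 ^ 2) * X + C ((112 - 336 * z7) * Om7 ^ 4) :
      ℂ[X]).Monic := by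
    monicity!
  have hNd : (X ^ 2 + C ((16 - 4 * z7) * Om7 ^ 2) * X + C ((112 - 336 * z7) * Om7 ^ 4) :
      ℂ[X]).natDegree = 2 := by
    compute_degree!
  have hDd : (C (z7 ^ 2) * (X + C ((16 - 4 * z7) * Om7 ^ 2))).natDegree = 1 := by
    rw [natDegree_C_mul (pow_ne_zero 2 z7_ne), natDegree_X_add_C]
  have h := mulx_all (L := PP7) (t := emb7 (t7 : K7)) (A := (-560 : ℤ) * Om7 ^ 4)
    (B := (-6272 : ℤ) * Om7 ^ 6) emb7_ne (by rw [g2_7]; ring) (by rw [g3_7]; ring) hN hD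
    (by rw [hNd, hDd]) ?_ z hz hz'
  · simpa using h
  · have e0 : emb7 (t7 : K7) ^ 2 = z7 ^ 2 := rfl
    rw [e0]
    have e1 : derivative (X ^ 2 + C ((16 - 4 * z7) * Om7 ^ 2) * X +
        C ((112 - 336 * z7) * Om7 ^ 4) : ℂ[X]) = 2 * X + C ((16 - 4 * z7) * Om7 ^ 2) := by
      simp only [derivative_add, derivative_mul, derivative_X_pow, derivative_C, derivative_X]
      simp [map_ofNat (C : ℂ →+* ℂ[X]) 2]
    have e2 : derivative (C (z7 ^ 2) * (X + C ((16 - 4 * z7) * Om7 ^ 2))) = C (z7 ^ 2) := by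
      rw [derivative_C_mul, derivative_X_add_C, mul_one]
    rw [e1, e2]
    obtain ⟨s, hs⟩ : ∃ s : ℂ[X], s = C (Om7 ^ 2) := ⟨_, rfl⟩
    obtain ⟨c, hc⟩ : ∃ c : ℂ[X], c = C z7 := ⟨_, rfl⟩
    have hc2 : c ^ 2 = c - 2 := by
      rw [hc, ← C_pow, z7_sq, C_sub]
      rfl
    have f0 : (C (z7 ^ 2) : ℂ[X]) = c - 2 := by rw [C_pow, ← hc, hc2]
    have f1 : (C ((16 - 4 * z7) * Om7 ^ 2) : ℂ[X]) = (16 - 4 * c) * s := by
      rw [hs, hc, C_mul, C_sub, C_mul]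
      rfl
    have f2 : (C ((112 - 336 * z7) * Om7 ^ 4) : ℂ[X]) = (112 - 336 * c) * s ^ 2 := by
      have : Om7 ^ 4 = (Om7 ^ 2) ^ 2 := by ring
      rw [hs, hc, this, C_mul, C_pow, C_sub, C_mul]
      rfl
    have f3 : (C (((-560 : ℤ) : ℂ) * Om7 ^ 4) : ℂ[X]) = -560 * s ^ 2 := by
      have : Om7 ^ 4 = (Om7 ^ 2) ^ 2 := by ring
      have h5 : (C ((-560 : ℤ) : ℂ) : ℂ[X]) = -560 := by
        push_cast
        rw [C_neg]
        rfl
      rw [hs, this, C_mul, C_pow, h5]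
    have f4 : (C (((-6272 : ℤ) : ℂ) * Om7 ^ 6) : ℂ[X]) = -6272 * s ^ 3 := by
      have : Om7 ^ 6 = (Om7 ^ 2) ^ 3 := by ring
      have h5 : (C ((-6272 : ℤ) : ℂ) : ℂ[X]) = -6272 := by
        push_cast
        rw [C_neg]
        rfl
      rw [hs, this, C_mul, C_pow, h5]
    rw [f0, f1, f2, f3, f4]
    linear_combination (1605632*c^7*s^7 - 1462272*c^6*X*s^6 - 28098560*c^6*s^7 + 458752*c^5*X^2*s^5 +
      21389312*c^5*X*s^6 + 199098368*c^5*s^7 - 46592*c^4*X^3*s^4 - 5318656*c^4*X^2*s^5 -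
      132149248*c^4*X*s^6 - 903168000*c^4*s^7 - 2688*c^3*X^4*s^3 + 369152*c^3*X^3*s^4 +
      27625472*c^3*X^2*s^5 + 508813312*c^3*X*s^6 + 2976841728*c^3*s^7 + 560*c^2*X^5*s^2 +
      24640*c^2*X^4*s^3 - 1415680*c^2*X^3*s^4 - 83507200*c^2*X^2*s^5 - 1298468864*c^2*X*s^6 -
      6707527680*c^2*s^7 - 2240*c*X^5*s^2 - 66304*c*X^4*s^3 + 2723840*c*X^3*s^4 +
      136019968*c*X^2*s^5 + 1886502912*c*X*s^6 + 8757116928*c*s^7 + 2240*X^5*s^2 + 55552*X^4*s^3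
      - 1992704*X^3*s^4 - 88596480*X^2*s^5 - 1126121472*X*s^6 - 4826529792*s^7) * hc2

/-- the constant coefficients of the multiplication by `t7` -/
def m7 : 𝓞 K7 := 16 - 4 * t7

/-- the constant coefficients of the multiplication by `t7` -/
def n7 : 𝓞 K7 := 112 - 336 * t7

theorem t7_ne : t7 ≠ 0 := by
  intro h
  have h1 := t7_sq
  rw [h] at h1
  norm_num at h1

theorem m7_eq : m7 = t7 ^ 3 * (3 * t7 - 5) := by
  rw [m7]
  linear_combination (-3 * t7 ^ 2 + 2 * t7 + 8) * t7_sq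

theorem n7_eq : n7 = t7 ^ 3 * (98 * t7 + 42) := by
  rw [n7]
  linear_combination (-98 * t7 ^ 2 - 140 * t7 + 56) * t7_sq

theorem m7_eq' : m7 = t7 * (4 - 8 * t7) := by
  rw [m7]
  linear_combination 8 * t7_sq

theorem n7_ne : n7 ≠ 0 := by
  intro h
  have h1 : n7 * (112 - 336 * (1 - t7)) = 200704 := by
    rw [n7]
    linear_combination (-112896) * t7_sq
  rw [h, zero_mul] at h1
  norm_num at h1

/-- The data of complex multiplication of the curve `y² = x³ - 560 x - 6272`. -/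
instance cd7 : CD where
  K := K7
  fieldK := fieldK7
  nfK := numberFieldK7
  pidK := pidK7
  emb := emb7
  ta := t7
  gen := gen7
  im := im7
  tr := 1
  nm := 2
  quad := quad7
  A := -560
  B := -6272
  disc := by norm_num
  jint := by norm_num
  Om := Om7
  Om_ne := Om7_ne
  g2 := g2_7
  g3 := g3_7
  Nt := X ^ 2 + C m7 * X + C n7
  Dt := C (t7 ^ 2) * (X + C m7)
  Nt_monic := by monicity!
  Nt_deg := by
    have h : (X ^ 2 + C m7 * X + C n7 : (𝓞 K7)[X]).natDegree = 2 := by compute_degree!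
    rw [h]
    rfl
  Dt_deg := by
    have h : (X ^ 2 + C m7 * X + C n7 : (𝓞 K7)[X]).natDegree = 2 := by compute_degree!
    rw [h, natDegree_C_mul (pow_ne_zero 2 t7_ne), natDegree_X_add_C]
  Dt_lead := by rw [leadingCoeff_mul, leadingCoeff_C, leadingCoeff_X_add_C, mul_one]
  Nt_lo := by
    have h : (X ^ 2 + C m7 * X + C n7 : (𝓞 K7)[X]).natDegree = 2 := by compute_degree!
    refine ⟨C (3 * t7 - 5) * X + C (98 * t7 + 42), ?_⟩
    rw [h]
    conv_lhs => rw [m7_eq, n7_eq]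
    simp only [C_mul]
    ring
  Dt_lo := by
    refine ⟨C (4 - 8 * t7), ?_⟩
    rw [natDegree_C_mul (pow_ne_zero 2 t7_ne), natDegree_X_add_C]
    conv_lhs => rw [m7_eq']
    simp only [C_mul, C_pow]
    ring
  cop := by
    obtain ⟨t, ht⟩ : ∃ t : K7, t = algebraMap (𝓞 K7) K7 (t7 ^ 2) := ⟨_, rfl⟩
    obtain ⟨m, hm⟩ : ∃ m : K7, m = algebraMap (𝓞 K7) K7 m7 := ⟨_, rfl⟩
    obtain ⟨n, hn⟩ : ∃ n : K7, n = algebraMap (𝓞 K7) K7 n7 := ⟨_, rfl⟩
    have ht0 : t ≠ 0 := by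
      rw [ht]
      exact (map_ne_zero_iff _ (FaithfulSMul.algebraMap_injective (𝓞 K7) K7)).2
        (pow_ne_zero 2 t7_ne)
    have hn0 : n ≠ 0 := by
      rw [hn]
      exact (map_ne_zero_iff _ (FaithfulSMul.algebraMap_injective (𝓞 K7) K7)).2 n7_ne
    rw [Polynomial.map_add, Polynomial.map_add, Polynomial.map_mul, Polynomial.map_mul,
      Polynomial.map_pow, Polynomial.map_add, map_X, map_C, map_C, map_C, ← ht, ← hm, ← hn]
    refine ⟨C n⁻¹, -(C (n⁻¹ * t⁻¹) * X), ?_⟩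
    have e1 : (C n⁻¹ : K7[X]) * C n = 1 := by
      rw [← C_mul, ← C_1, inv_mul_cancel₀ hn0]
    have e2 : (C (n⁻¹ * t⁻¹) : K7[X]) * C t = C n⁻¹ := by
      rw [← C_mul, mul_assoc, inv_mul_cancel₀ ht0, mul_one]
    linear_combination e1 - X * (X + C m) * e2
  mulx := by
    intro z h1 h2
    have h := mulP7 z h1 h2
    have hO : Om7 ≠ 0 := Om7_ne
    have hz : (emb7.toRingHom.comp (algebraMap (𝓞 K7) K7)) t7 = z7 := rfl
    have f0 : (emb7.toRingHom.comp (algebraMap (𝓞 K7) K7)) (t7 ^ 2) = z7 ^ 2 := by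
      rw [map_pow, hz]
    have f1 : (emb7.toRingHom.comp (algebraMap (𝓞 K7) K7)) m7 = 16 - 4 * z7 := by
      rw [m7, map_sub, map_mul, hz, map_ofNat, map_ofNat]
    have f2 : (emb7.toRingHom.comp (algebraMap (𝓞 K7) K7)) n7 = 112 - 336 * z7 := by
      rw [n7, map_sub, map_mul, hz, map_ofNat, map_ofNat]
    rw [eval₂_add, eval₂_add, eval₂_mul, eval₂_mul, eval₂_pow, eval₂_add, eval₂_X, eval₂_C,
      eval₂_C, eval₂_C, f0, f1, f2]
    change (PP7.weierstrassP z / Om7 ^ 2) ^ 2 + (16 - 4 * z7) * (PP7.weierstrassP z / Om7 ^ 2) +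
        (112 - 336 * z7) =
      PP7.weierstrassP (emb7 (t7 : K7) * z) / Om7 ^ 2 *
        (z7 ^ 2 * (PP7.weierstrassP z / Om7 ^ 2 + (16 - 4 * z7)))
    field_simp
    linear_combination h
  bad := 6 * (4 * (-560) ^ 3 + 27 * (-6272) ^ 2) * 2 * (1 ^ 2 - 4 * 2)
  bad_ne := by norm_num
  bad_dvd := by norm_num

/-- The class `V7`. -/
instance v7 : V7 where
  tr := rfl
  nm := rfl
  u := 2
  u_ne := two_ne_zero
  A := by
    change (-560 : ℤ) = -35 * 2 ^ 4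
    norm_num
  B := by
    change (-6272 : ℤ) = -98 * 2 ^ 6
    norm_num

end

end Pool.Agent.Lib.MP_1a91b9_ntV
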