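import Pool.Agent.Lib.MP_1a91b9_ntV.L.Def7
import Pool.Agent.Lib.MP_1a91b9_nuX.HW.Top
import Pool.Agent.Lib.MP_1a91b9_nuX.GL.Loc

/-!
# The field `ℚ(√-7)`: the Hecke character of the curve, its bad places

`rr = √-7`. The curve `E : y² = x³ - 35 u⁴ x - 98 u⁶` is the twist of `WE 1` by `rr`; a place at which it has
bad reduction divides `14`.
-/

set_option autoImplicit false
set_option linter.unusedSectionVars false

namespace Pool.Agent.Lib.MP_1a91b9_ntV.L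

open NumberField IsDedekindDomain WeierstrassCurve Pool.Agent.Lib.MP_1a91b9_nuT
  Pool.Agent.Lib.MP_1a91b9_nuX Pool.Agent.Lib.MP_1a91b9_ntV

noncomputable section

variable [CD] [hv : V7]

theorem mem_q7 : ((CD.tr, CD.nm) : ℤ × ℤ) ∈ UF.qList := by
  rw [hv.tr, hv.nm]
  simp [UF.qList]

theorem ellK7 : GL.EllK := HW.ellK_all (Or.inl mem_q7)

theorem exists_hd7 : ∃ (f : 𝓞 K) (ps : Ideal (𝓞 K) → 𝓞 K), HDat f ps :=
  HW.hdat_all (Or.inl mem_q7)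

/-- the Hecke character of the curve -/
instance hc7 : HC where
  f := exists_hd7.choose
  ps := exists_hd7.choose_spec.choose
  hd := exists_hd7.choose_spec.choose_spec

/-- the square root of `-7` -/
def rr : 𝓞 K := 2 * ta - 1

theorem rr_sq : (rr : 𝓞 K) ^ 2 = -7 := by
  rw [rr]
  linear_combination 4 * ta_sq

theorem rr_ne : (rr : 𝓞 K) ≠ 0 := by
  intro h
  have h1 := rr_sq
  rw [h] at h1
  norm_num at h1

/-- the elements of `K` -/
abbrev taK : K := ((ta : 𝓞 K) : K)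

theorem taK_sq : (taK : K) ^ 2 = taK - 2 := by
  change (algebraMap (𝓞 K) K ta) ^ 2 = algebraMap (𝓞 K) K ta - 2
  rw [← map_pow, ta_sq, map_sub, map_ofNat]

theorem tbK : ((tb : 𝓞 K) : K) = 1 - taK := by
  change algebraMap (𝓞 K) K (1 - ta) = 1 - algebraMap (𝓞 K) K ta
  rw [map_sub, map_one]

theorem tbK4 : ((tb : 𝓞 K) : K) ^ 4 = 3 * taK - 1 := by
  rw [tbK]
  linear_combination (taK ^ 2 - 3 * taK + 1) * taK_sq

theorem rrK : ((rr : 𝓞 K) : K) = 2 * taK - 1 := by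
  change algebraMap (𝓞 K) K (2 * ta - 1) = 2 * algebraMap (𝓞 K) K ta - 1
  rw [map_sub, map_mul, map_one, map_ofNat]

theorem rrK_sq : ((rr : 𝓞 K) : K) ^ 2 = -7 := by
  rw [rrK]
  linear_combination 4 * taK_sq

theorem rrK_ne : ((rr : 𝓞 K) : K) ≠ 0 := by
  intro h
  have h1 := rrK_sq
  rw [h] at h1
  norm_num at h1

theorem uK_ne : ((hv.u : ℤ) : K) ≠ 0 := Int.cast_ne_zero.2 hv.u_ne

/-- the scaling factor -/
def kap : Kˣ := Units.mk0 (((rr : 𝓞 K) : K) * ((hv.u : ℤ) : K)) (mul_ne_zero rrK_ne uK_ne)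

theorem kap_sq : ((kap : Kˣ) : K) ^ 2 = -7 * ((hv.u : ℤ) : K) ^ 2 := by
  change (((rr : 𝓞 K) : K) * ((hv.u : ℤ) : K)) ^ 2 = _
  rw [mul_pow, rrK_sq]

/-- the change of variables to the twist of `E` by `D rr` -/
def C7 (D : 𝓞 K) : VariableChange K := ⟨kap⁻¹, -((D : K) * taK), 0, 0⟩

theorem cdA : ((CD.A : ℤ) : K) = -35 * ((hv.u : ℤ) : K) ^ 4 := by
  rw [hv.A]
  push_cast
  ring

theorem cdB : ((CD.B : ℤ) : K) = -98 * ((hv.u : ℤ) : K) ^ 6 := by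
  rw [hv.B]
  push_cast
  ring

/-- **`WE D` is the twist of `E` by `D rr`.** -/
theorem C7_smul (D : 𝓞 K) : C7 D • WE D =
    ⟨0, 0, 0, ((CD.A : ℤ) : K) * ((D * rr : 𝓞 K) : K) ^ 2,
      ((CD.B : ℤ) : K) * ((D * rr : 𝓞 K) : K) ^ 3⟩ := by
  have hu : (((C7 D).u⁻¹ : Kˣ) : K) = ((kap : Kˣ) : K) := by
    change (((kap⁻¹)⁻¹ : Kˣ) : K) = _
    rw [inv_inv]
  have hk := kap_sq (hv := hv)
  have hr := rrK_sq (hv := hv)
  have ht := taK_sq (hv := hv)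
  have hDr : ((D * rr : 𝓞 K) : K) = (D : K) * ((rr : 𝓞 K) : K) := map_mul (algebraMap (𝓞 K) K) _ _
  have hk4 : ((kap : Kˣ) : K) ^ 4 = 49 * ((hv.u : ℤ) : K) ^ 4 := by
    linear_combination (((kap : Kˣ) : K) ^ 2 - 7 * ((hv.u : ℤ) : K) ^ 2) * hk
  have hk6 : ((kap : Kˣ) : K) ^ 6 = -343 * ((hv.u : ℤ) : K) ^ 6 := by
    linear_combination ((kap : Kˣ) : K) ^ 4 * hk - 7 * ((hv.u : ℤ) : K) ^ 2 * hk4
  have hr3 : ((rr : 𝓞 K) : K) ^ 3 = -7 * (2 * taK - 1) := by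
    rw [← rrK]
    linear_combination ((rr : 𝓞 K) : K) * hr
  have hd2 : ((D * rr : 𝓞 K) : K) ^ 2 = -7 * (D : K) ^ 2 := by
    rw [hDr, mul_pow, hr]
    ring
  have hd3 : ((D * rr : 𝓞 K) : K) ^ 3 = -7 * (2 * taK - 1) * (D : K) ^ 3 := by
    rw [hDr, mul_pow, hr3]
    ring
  ext
  · rw [variableChange_a₁]
    simp [WE, C7]
  · rw [variableChange_a₂, hu]
    simp only [WE, C7, tbK4]
    ring
  · rw [variableChange_a₃]
    simp [WE, C7]
  · rw [variableChange_a₄, hu, hk4, hd2, cdA]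
    simp only [WE, C7, tbK4]
    linear_combination (-147 * ((hv.u : ℤ) : K) ^ 4 * (D : K) ^ 2) * ht
  · rw [variableChange_a₆, hu, hk6, hd3, cdB]
    simp only [WE, C7, tbK4]
    linear_combination (-343 * ((hv.u : ℤ) : K) ^ 6 * (D : K) ^ 3 * (2 * taK - 1)) * ht

/-- the discriminant -/
theorem WE_disc (D : 𝓞 K) : (WE D : WeierstrassCurve K).Δ = ((2 ^ 12 * D ^ 6 : 𝓞 K) : K) := by
  have h8 : ((tb : 𝓞 K) : K) ^ 8 * (((tb : 𝓞 K) : K) ^ 4 - 1) ^ 2 = 2 ^ 8 := by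
    have e : ((tb : 𝓞 K) : K) ^ 8 = (((tb : 𝓞 K) : K) ^ 4) ^ 2 := by ring
    rw [e, tbK4]
    linear_combination (81 * (taK ^ 2 - taK + 2) - 288) * taK_sq
  have e1 : (WE D : WeierstrassCurve K).Δ = 16 * (D : K) ^ 6 *
      (((tb : 𝓞 K) : K) ^ 8 * (((tb : 𝓞 K) : K) ^ 4 - 1) ^ 2) := by
    simp only [WE, WeierstrassCurve.Δ, WeierstrassCurve.b₂, WeierstrassCurve.b₄,
      WeierstrassCurve.b₆, WeierstrassCurve.b₈]
    ring
  have e2 : ((2 ^ 12 * D ^ 6 : 𝓞 K) : K) = 2 ^ 12 * (D : K) ^ 6 := by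
    change algebraMap (𝓞 K) K (2 ^ 12 * D ^ 6) = _
    rw [map_mul, map_pow, map_pow, map_ofNat]
  rw [e1, h8, e2]
  ring

/-- the invariant -/
theorem WE_c4 (D : 𝓞 K) : (WE D : WeierstrassCurve K).c₄ ^ 3 =
    -3375 * (WE D : WeierstrassCurve K).Δ := by
  rw [WE_disc]
  have e2 : ((2 ^ 12 * D ^ 6 : 𝓞 K) : K) = 2 ^ 12 * (D : K) ^ 6 := by
    change algebraMap (𝓞 K) K (2 ^ 12 * D ^ 6) = _
    rw [map_mul, map_pow, map_pow, map_ofNat]
  have e3 : (1 + ((tb : 𝓞 K) : K) ^ 4) ^ 2 - 3 * ((tb : 𝓞 K) : K) ^ 4 = -15 := by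
    rw [tbK4]
    linear_combination 9 * taK_sq
  have e1 : (WE D : WeierstrassCurve K).c₄ = 16 * (D : K) ^ 2 *
      ((1 + ((tb : 𝓞 K) : K) ^ 4) ^ 2 - 3 * ((tb : 𝓞 K) : K) ^ 4) := by
    simp only [WE, WeierstrassCurve.c₄, WeierstrassCurve.b₂, WeierstrassCurve.b₄]
    ring
  rw [e1, e2, e3]
  ring

/-- integral model -/
theorem WE_int (v : HeightOneSpectrum (𝓞 K)) (D : 𝓞 K) :
    GM.IntW (v.valuation K) (WE D : WeierstrassCurve K) := by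
  have hle : ∀ x : 𝓞 K, v.valuation K (x : K) ≤ 1 := fun x => v.valuation_le_one x
  refine ⟨?_, ?_, ?_, ?_, ?_⟩
  · exact (map_zero (v.valuation K)).trans_le zero_le
  · have e1 : (WE D : WeierstrassCurve K).a₂ = ((D * (1 + tb ^ 4) : 𝓞 K) : K) := by
      change (D : K) * (1 + ((tb : 𝓞 K) : K) ^ 4) = algebraMap (𝓞 K) K (D * (1 + tb ^ 4))
      rw [map_mul, map_add, map_one, map_pow]
    rw [e1]
    exact hle _
  · exact (map_zero (v.valuation K)).trans_le zero_le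
  · have e1 : (WE D : WeierstrassCurve K).a₄ = ((D ^ 2 * tb ^ 4 : 𝓞 K) : K) := by
      change (D : K) ^ 2 * ((tb : 𝓞 K) : K) ^ 4 = algebraMap (𝓞 K) K (D ^ 2 * tb ^ 4)
      rw [map_mul, map_pow, map_pow]
    rw [e1]
    exact hle _
  · exact (map_zero (v.valuation K)).trans_le zero_le

/-- good reduction at the odd places which do not divide `D` -/
theorem WE_good {v : HeightOneSpectrum (𝓞 K)} (h2 : (2 : 𝓞 K) ∉ v.asIdeal) {D : 𝓞 K}
    (hD : D ∉ v.asIdeal) : GM.GoodW (v.valuation K) (WE D : WeierstrassCurve K) := by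
  refine ⟨WE_int v D, ?_⟩
  rw [WE_disc]
  refine (v.valuation_eq_one_iff_notMem).2 fun h => ?_
  rcases v.isPrime.mem_or_mem h with h | h
  · exact h2 (v.isPrime.mem_of_pow_mem _ h)
  · exact hD (v.isPrime.mem_of_pow_mem _ h)

/-- the places prime to `14` are prime to `f` -/
theorem f_notMem {v : HeightOneSpectrum (𝓞 K)} (h2 : (2 : 𝓞 K) ∉ v.asIdeal)
    (hr : (rr : 𝓞 K) ∉ v.asIdeal) : (HC.f : 𝓞 K) ∉ v.asIdeal := by
  intro h
  refine HC.hd.bad v h ?_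
  -- the curve is isomorphic to `WE rr`
  have h1 := C7_smul (rr : 𝓞 K)
  have h3 : (⟨Units.mk0 ((rr : 𝓞 K) : K) rrK_ne, 0, 0, 0⟩ : VariableChange K) •
      (C7 (rr : 𝓞 K) • WE (rr : 𝓞 K)) = E K := by
    rw [h1]
    have hu : (((Units.mk0 ((rr : 𝓞 K) : K) rrK_ne)⁻¹ : Kˣ) : K) = ((rr : 𝓞 K) : K)⁻¹ :=
      Units.val_inv_eq_inv_val _
    have hne := rrK_ne (hv := hv)
    have hDr : ((rr * rr : 𝓞 K) : K) = ((rr : 𝓞 K) : K) * ((rr : 𝓞 K) : K) :=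
      map_mul (algebraMap (𝓞 K) K) _ _
    have hA : (E K : WeierstrassCurve K).a₄ = ((CD.A : ℤ) : K) := rfl
    have hB : (E K : WeierstrassCurve K).a₆ = ((CD.B : ℤ) : K) := rfl
    ext
    · rw [variableChange_a₁]
      simp [E]
    · rw [variableChange_a₂]
      simp [E]
    · rw [variableChange_a₃]
      simp [E]
    · rw [variableChange_a₄, hA, hDr, hu]
      field_simp
      ring
    · rw [variableChange_a₆, hB, hDr, hu]
      field_simp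
      ring
  refine ⟨((⟨Units.mk0 ((rr : 𝓞 K) : K) rrK_ne, 0, 0, 0⟩ : VariableChange K) *
    C7 (rr : 𝓞 K))⁻¹, ?_⟩
  rw [← mul_smul] at h3
  rw [← h3, inv_smul_smul]
  exact WE_good h2 hr

end

end Pool.Agent.Lib.MP_1a91b9_ntV.L
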