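import Pool.Agent.Lib.MP_1a91b9_ntW.L.FrS
import Pool.Agent.Lib.MP_1a91b9_ntV.L.Hc7
import Pool.Agent.Lib.MP_1a91b9_ntV.L.Cd7

/-!
# The field `ℚ(√-7)`: the Hecke character of the curve `E : y² = x³ - 560 x - 6272`

The points of abscissa `4 - 8 a` are killed by `a²`. For a prime `q` congruent to `1` modulo `a²`, prime to `14`,
`ps (q) = (√-7 / q) q`.
-/

set_option autoImplicit false
set_option linter.unusedSectionVars false

namespace Pool.Agent.Lib.MP_1a91b9_ntV.L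

open NumberField IsDedekindDomain Polynomial WeierstrassCurve Pool.Agent.Lib.MP_1a91b9_nuT
  Pool.Agent.Lib.MP_1a91b9_nuX Pool.Agent.Lib.MP_1a91b9_nuX.DB Pool.Agent.Lib.MP_1a91b9_ntV

noncomputable section

/-! ### The point of order `a²` -/

section pt

variable {F : Type*} [Field F] [Algebra K7 F]

theorem tF7_sq : (tF F : F) ^ 2 = tF F - 2 := by
  have h : (tF F : F) = algebraMap K7 F (((ta : 𝓞 K)) : K7) := rfl
  have h2 : (((ta : 𝓞 K)) : K7) ^ 2 = ((ta : 𝓞 K) : K7) - 2 := taK_sq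
  rw [h, ← map_pow, h2, map_sub, map_ofNat]

theorem io7_m : io F m7 = 16 - 4 * tF F := by
  have h : io F m7 = algebraMap K7 F (algebraMap (𝓞 K7) K7 m7) := rfl
  have h1 : (tF F : F) = algebraMap K7 F (algebraMap (𝓞 K7) K7 t7) := rfl
  rw [h, h1, m7, map_sub, map_sub, map_mul, map_mul, map_ofNat, map_ofNat, map_ofNat, map_ofNat]

theorem io7_n : io F n7 = 112 - 336 * tF F := by
  have h : io F n7 = algebraMap K7 F (algebraMap (𝓞 K7) K7 n7) := rfl
  have h1 : (tF F : F) = algebraMap K7 F (algebraMap (𝓞 K7) K7 t7) := rfl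
  rw [h, h1, n7, map_sub, map_sub, map_mul, map_mul, map_ofNat, map_ofNat, map_ofNat, map_ofNat]

theorem io7_t2 : io F (t7 ^ 2) = tF F ^ 2 := by
  have h : io F (t7 ^ 2) = algebraMap K7 F (algebraMap (𝓞 K7) K7 (t7 ^ 2)) := rfl
  have h1 : (tF F : F) = algebraMap K7 F (algebraMap (𝓞 K7) K7 t7) := rfl
  rw [h, h1, map_pow, map_pow]

theorem NF7 : (NF F : F[X]) = X ^ 2 + C (16 - 4 * tF F) * X + C (112 - 336 * tF F) := by
  have h : (NF F : F[X]) = (X ^ 2 + C m7 * X + C n7 : (𝓞 K7)[X]).map (io F) := rfl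
  rw [h]
  simp only [Polynomial.map_add, Polynomial.map_mul, Polynomial.map_pow, map_X, map_C]
  rw [io7_m, io7_n]

theorem DF7 : (DF F : F[X]) = C (tF F ^ 2) * (X + C (16 - 4 * tF F)) := by
  have h : (DF F : F[X]) = (C (t7 ^ 2) * (X + C m7) : (𝓞 K7)[X]).map (io F) := rfl
  rw [h]
  simp only [Polynomial.map_add, Polynomial.map_mul, map_X, map_C]
  rw [io7_m, io7_t2]

theorem NF7_eval (x : F) :
    (NF F).eval x = x ^ 2 + (16 - 4 * tF F) * x + (112 - 336 * tF F) := by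
  rw [NF7]
  simp only [eval_add, eval_mul, eval_pow, eval_X, eval_C]

theorem DF7_eval (x : F) : (DF F).eval x = tF F ^ 2 * (x + (16 - 4 * tF F)) := by
  rw [DF7]
  simp only [eval_add, eval_mul, eval_X, eval_C]

theorem WF7_eval (x : F) : (WF F).eval x =
    (2 * x + (16 - 4 * tF F)) * (tF F ^ 2 * (x + (16 - 4 * tF F))) -
      (x ^ 2 + (16 - 4 * tF F) * x + (112 - 336 * tF F)) * tF F ^ 2 := by
  have e1 : derivative (NF F) = 2 * X + C (16 - 4 * tF F) := by
    rw [NF7, derivative_add, derivative_add, derivative_C_mul, derivative_X, derivative_C,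
      derivative_X_pow]
    simp [map_ofNat (C : F →+* F[X]) 2]
  have e2 : derivative (DF F) = C (tF F ^ 2) := by
    rw [DF7, derivative_C_mul, derivative_X_add_C, mul_one]
  rw [WF, eval_sub, eval_mul, eval_mul, e1, e2, NF7_eval, DF7_eval]
  simp only [eval_add, eval_mul, eval_X, eval_C, eval_ofNat]

theorem cA7 : (cA F : F) = -560 := by
  change ((-560 : ℤ) : F) = -560
  push_cast
  ring

theorem cB7 : (cB F : F) = -6272 := by
  change ((-6272 : ℤ) : F) = -6272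
  push_cast
  ring

theorem pa_eqn {y : F} (hy : y ^ 2 = 5376 * tF F - 8960) :
    y ^ 2 = (4 - 8 * tF F) ^ 3 + cA F * (4 - 8 * tF F) + cB F := by
  rw [hy, cA7, cB7]
  linear_combination (512 * tF F - 256) * (tF7_sq (F := F))

theorem pb_eqn {F : Type*} [Field F] [Algebra K7 F] : (0 : F) ^ 2 = (4 * tF F - 16) ^ 3 + cA F * (4 * tF F - 16) + cB F := by
  rw [cA7, cB7]
  linear_combination (-64 * tF F + 704) * (tF7_sq (F := F))

/-- the point of order `a` -/
def pb (F : Type*) [Field F] [Algebra K7 F] : Pt F :=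
  mkPt (4 * tF F - 16) 0 pb_eqn

variable [CharZero F] [DecidableEq F]

theorem pb_ne : pb F ≠ 0 := mk_ne_zero _ _ _

theorem pb_ta : taH F (pb F) = 0 := by
  rw [taH_apply]
  refine taF_of_eq _ ?_
  rw [DF7_eval]
  ring

theorem pb_two : 2 • pb F = 0 := by
  have h : -pb F = pb F := by
    rw [pb, neg_mk, mk_inj]
    exact ⟨rfl, neg_zero⟩
  have h2 : pb F + pb F = 0 := by
    nth_rewrite 1 [← h]
    exact neg_add_cancel _
  rw [two_nsmul, h2]

theorem pa_ta {y : F} (hy : y ^ 2 = 5376 * tF F - 8960) :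
    taH F (mkPt (4 - 8 * tF F) y (pa_eqn hy)) = pb F := by
  have hs := tF7_sq (F := F)
  have ht : tF F ≠ 0 := tF_ne
  have hD : (DF F).eval (4 - 8 * tF F) ≠ 0 := by
    rw [DF7_eval]
    refine mul_ne_zero (pow_ne_zero 2 ht) ?_
    intro h
    have h1 : (4 - 8 * tF F + (16 - 4 * tF F)) * (20 - 12 * (1 - tF F)) = 448 := by
      linear_combination (-144) * hs
    rw [h, zero_mul] at h1
    norm_num at h1
  rw [taH_apply, taF_of_ne _ hD, pb, mk_inj]
  constructor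
  · rw [div_eq_iff hD, NF7_eval, DF7_eval]
    linear_combination (48 * tF F ^ 2 - 224 * tF F + 96) * hs
  · rw [div_eq_iff (mul_ne_zero ht (pow_ne_zero 2 hD)), WF7_eval]
    linear_combination (y * (144 * tF F ^ 2)) * hs

theorem pa_two {y : F} (hy : y ^ 2 = 5376 * tF F - 8960) :
    (2 : ℤ) • mkPt (4 - 8 * tF F) y (pa_eqn hy) = pb F := by
  obtain ⟨T, hT⟩ : ∃ T, T = mkPt (4 - 8 * tF F) y (pa_eqn hy) := ⟨_, rfl⟩
  have h1 : taH F T = pb F := by
    rw [hT]
    exact pa_ta hy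
  have h2 := taF_quad T
  rw [← taH_apply, ← taH_apply, h1, pb_ta] at h2
  have e1 : (CD.tr : ℤ) = 1 := rfl
  have e2 : (CD.nm : ℤ) = 2 := rfl
  rw [e1, e2, one_smul] at h2
  rw [← hT]
  exact (sub_eq_zero.1 h2.symm).symm

theorem pa_four {y : F} (hy : y ^ 2 = 5376 * tF F - 8960) :
    4 • mkPt (4 - 8 * tF F) y (pa_eqn hy) = 0 := by
  have h2 := pa_two hy
  have h4 : (4 : ℕ) = 2 * 2 := rfl
  have h3 : (2 : ℕ) • mkPt (4 - 8 * tF F) y (pa_eqn hy) = pb F := by
    rw [← h2, ← natCast_zsmul]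
    rfl
  rw [h4, mul_nsmul, h3, pb_two]

theorem pa_sm {y : F} (hy : y ^ 2 = 5376 * tF F - 8960) (c : 𝓞 K7) :
    sm F c (mkPt (4 - 8 * tF F) y (pa_eqn hy)) =
      (c0 c + 2 * c1 c) • mkPt (4 - 8 * tF F) y (pa_eqn hy) := by
  rw [sm_coords c (c0 c) (c1 c) (coo c), pa_ta hy, ← pa_two hy, add_smul, smul_smul,
    mul_comm (c1 c) 2]

theorem pa_dvd {y : F} (hy : y ^ 2 = 5376 * tF F - 8960) {n : ℤ}
    (h : n • mkPt (4 - 8 * tF F) y (pa_eqn hy) = 0) : (4 : ℤ) ∣ n := by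
  obtain ⟨T, hT⟩ : ∃ T, T = mkPt (4 - 8 * tF F) y (pa_eqn hy) := ⟨_, rfl⟩
  have h0 : T ≠ 0 := by
    rw [hT]
    exact mk_ne_zero _ _ _
  have h2 := pa_two hy
  have h4 := pa_four hy
  rw [← hT] at h h2 h4
  have h4' : (4 : ℤ) • T = 0 := by
    rw [← h4, ← natCast_zsmul]
    rfl
  by_contra hn
  have h6 : (2 : ℤ) • T ≠ 0 := by
    rw [h2]
    exact pb_ne
  have h5 : n % 4 = 1 ∨ n % 4 = 2 ∨ n % 4 = 3 := by omega
  rcases h5 with h5 | h5 | h5
  · apply h0
    have e : (1 : ℤ) = n - (n / 4) * 4 := by omega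
    rw [← one_zsmul T, e, sub_smul, mul_smul, h, h4', smul_zero, sub_zero]
  · apply h6
    have e : (2 : ℤ) = n - (n / 4) * 4 := by omega
    rw [e, sub_smul, mul_smul, h, h4', smul_zero, sub_zero]
  · apply h0
    have e : (1 : ℤ) = (n / 4 + 1) * 4 - n := by omega
    rw [← one_zsmul T, e, sub_smul, mul_smul, h, h4', smul_zero, sub_zero]

end pt

/-! ### The sign at the primes -/

/-- the place of a normalised prime -/
def plq (q : Pg7) : HeightOneSpectrum (𝓞 K7) where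
  asIdeal := Ideal.span {q.1}
  isPrime := (Ideal.span_singleton_prime q.prime.ne_zero).2 q.prime
  ne_bot := by
    rw [Ne, Ideal.span_singleton_eq_bot]
    exact q.prime.ne_zero

theorem mem_plq {q : Pg7} {x : 𝓞 K7} : x ∈ (plq q).asIdeal ↔ q.1 ∣ x := Ideal.mem_span_singleton

theorem two_notMem (q : Pg7) : (2 : 𝓞 K7) ∉ (plq q).asIdeal := by
  rw [mem_plq]
  exact q.not_two

/-- the radicand of the ordinate -/
def bt7 : 𝓞 K7 := 5376 * ta - 8960

theorem bt7_eq : bt7 = rr * (16 * (tb * rr)) ^ 2 := by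
  have h := rr_sq (hv := v7)
  have h1 := ta_sq (hv := v7)
  have e : (rr : 𝓞 K7) * (16 * (tb * rr)) ^ 2 = 256 * tb ^ 2 * rr ^ 2 * rr := by ring
  rw [e, h, bt7]
  have e2 : (rr : 𝓞 K7) = 2 * ta - 1 := rfl
  rw [e2]
  linear_combination (3584 * ta - 5376) * h1

theorem ra_mod (x : 𝓞 K7) : 2 * ra x = 2 * ((c0 x + 2 * c1 x : ℤ) : ZMod 8) := by
  rw [ra_apply]
  push_cast
  have h : (8 : ZMod 8) = 0 := rfl
  linear_combination (c1 x : ZMod 8) * h

/-- **The Hecke character at the primes.** -/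
theorem ps_prime (q : Pg7) (h7 : ¬ q.1 ∣ rr) : ps (Ideal.span {q.1}) = (ch q rr : 𝓞 K7) * q.1 := by
  classical
  have hqb : ¬ q.1 ∣ (16 * (tb * rr) : 𝓞 K7) := by
    intro h
    rcases q.prime.dvd_or_dvd h with h | h
    · have e : (16 : 𝓞 K7) = 2 ^ 4 := by norm_num
      rw [e] at h
      exact q.not_two (q.prime.dvd_of_dvd_pow h)
    · rcases q.prime.dvd_or_dvd h with h | h
      · exact q.prime.not_isUnit (q.cop_tb.isUnit_of_dvd' dvd_rfl h)
      · exact h7 h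
  have hnb : ¬ q.1 ∣ bt7 := by
    rw [bt7_eq]
    intro h
    rcases q.prime.dvd_or_dvd h with h | h
    · exact h7 h
    · exact hqb (q.prime.dvd_of_dvd_pow h)
  obtain ⟨V, hV⟩ := GL.exists_abv (Ω := AlgebraicClosure K7) (plq q)
  obtain ⟨σ, hσ⟩ := GL.exists_fr hV
  obtain ⟨y, hy⟩ : ∃ y : AlgebraicClosure K7,
      y ^ 2 = algebraMap K7 (AlgebraicClosure K7) ((bt7 : 𝓞 K7) : K7) :=
    IsAlgClosed.exists_pow_nat_eq _ (by norm_num)
  have htF : (tF (AlgebraicClosure K7) : AlgebraicClosure K7) =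
      algebraMap K7 (AlgebraicClosure K7) ((ta : 𝓞 K7) : K7) := rfl
  have hy' : y ^ 2 = 5376 * tF (AlgebraicClosure K7) - 8960 := by
    rw [hy, htF]
    have e : ((bt7 : 𝓞 K7) : K7) = 5376 * ((ta : 𝓞 K7) : K7) - 8960 := by
      change algebraMap (𝓞 K7) K7 (5376 * ta - 8960) = _
      rw [map_sub, map_mul, map_ofNat, map_ofNat]
      rfl
    rw [e, map_sub, map_mul, map_ofNat, map_ofNat]
  obtain ⟨T, hT⟩ : ∃ T, T = mkPt (4 - 8 * tF (AlgebraicClosure K7)) y (pa_eqn hy') := ⟨_, rfl⟩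
  have hT4 : 4 • T = 0 := by
    rw [hT]
    exact pa_four hy'
  have hv4 : V.valuation ((4 : ℕ) : AlgebraicClosure K7) = 1 := by
    have h : (4 : 𝓞 K7) ∉ (plq q).asIdeal := by
      rw [mem_plq]
      intro h
      have e : (4 : 𝓞 K7) = 2 ^ 2 := by norm_num
      rw [e] at h
      exact q.not_two (q.prime.dvd_of_dvd_pow h)
    have h4 := Pool.Agent.Lib.MP_1a91b9_ntW.L.notMem_eq hV h
    have e : algebraMap K7 (AlgebraicClosure K7) (((4 : 𝓞 K7) : 𝓞 K7) : K7) = 4 := by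
      change algebraMap K7 _ (algebraMap (𝓞 K7) K7 4) = 4
      rw [map_ofNat, map_ofNat]
    rw [e] at h4
    rw [Nat.cast_ofNat]
    exact h4
  have hf : (HC.f : 𝓞 K7) ∉ (plq q).asIdeal := f_notMem (two_notMem q) (by rwa [mem_plq])
  have hfr := HC.hd.frob (plq q) hf V hV σ hσ 4 T hv4 hT4
  obtain ⟨ψ, hψ⟩ : ∃ ψ : 𝓞 K7, ψ = ps (plq q).asIdeal := ⟨_, rfl⟩
  have hfr' : ga σ T = (c0 ψ + 2 * c1 ψ) • T := by
    rw [hψ]
    refine hfr.trans ?_
    rw [hT]
    exact pa_sm hy' _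
  have hx : σ (4 - 8 * tF (AlgebraicClosure K7)) = 4 - 8 * tF (AlgebraicClosure K7) := by
    rw [htF, map_sub, map_mul, σ.commutes, map_ofNat, map_ofNat]
  have hTne : ga σ T ≠ 0 := by
    intro h0
    rw [hT] at h0
    apply mk_ne_zero (4 - 8 * tF (AlgebraicClosure K7)) y (pa_eqn hy')
    exact (pm_inj _) (h0.trans (map_zero _).symm)
  have hchb : ch q bt7 = ch q rr := by
    have h1 : ch q (16 * (tb * rr)) * ch q (16 * (tb * rr)) = 1 := by
      have := ch_sq hqb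
      rwa [pow_two] at this
    rw [bt7_eq, pow_two, ch_mul, ch_mul, h1, mul_one]
  have hsq : ch q bt7 = 1 ↔ ∃ s : 𝓞 K7, s ^ 2 - bt7 ∈ (plq q).asIdeal := by
    rw [ch_one_iff hnb]
    refine exists_congr fun s => ?_
    rw [mem_plq, ← dvd_neg, neg_sub]
  -- the value modulo `a²`
  have hmod : (ch q rr = 1 ∧ 2 * ra ψ = 2) ∨ (ch q rr = -1 ∧ 2 * ra ψ = -2) := by
    have hnb' : bt7 ∉ (plq q).asIdeal := by rwa [mem_plq]
    rw [← hchb]
    rcases Pool.Agent.Lib.MP_1a91b9_ntW.L.fr_sqrt (two_notMem q) hV hσ hnb' hy with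
      ⟨h5, h6⟩ | ⟨h5, h6⟩
    · left
      have hga : ga σ T = T := by
        refine pt_ext hTne (hT ▸ mk_ne_zero _ _ _) ?_ ?_
        · rw [xc_ga, hT, xc_mk, hx]
        · rw [yc_ga, hT, yc_mk, h6]
      rw [hga] at hfr'
      have h9 : ((c0 ψ + 2 * c1 ψ) - 1) • T = 0 := by
        rw [sub_smul, one_smul, ← hfr', sub_self]
      rw [hT] at h9
      obtain ⟨k, hk⟩ := pa_dvd hy' h9
      refine ⟨hsq.2 h5, ?_⟩
      rw [ra_mod]
      have e : c0 ψ + 2 * c1 ψ = 1 + 4 * k := by omega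
      rw [e]
      push_cast
      have h8 : (8 : ZMod 8) = 0 := rfl
      linear_combination (k : ZMod 8) * h8
    · right
      have hga : ga σ T = -T := by
        have hT' : -T = mkPt (4 - 8 * tF (AlgebraicClosure K7)) (-y)
            (by linear_combination (pa_eqn hy')) := by
          rw [hT, neg_mk]
        refine pt_ext hTne (hT' ▸ mk_ne_zero _ _ _) ?_ ?_
        · rw [xc_ga, hT', hT, xc_mk, hx, xc_mk]
        · rw [yc_ga, hT', hT, yc_mk, h6, yc_mk]
      rw [hga] at hfr'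
      have h9 : ((c0 ψ + 2 * c1 ψ) + 1) • T = 0 := by
        rw [add_smul, one_smul, ← hfr', neg_add_cancel]
      rw [hT] at h9
      obtain ⟨k, hk⟩ := pa_dvd hy' h9
      refine ⟨(ch_or hnb).resolve_left fun h => h5 (hsq.1 h), ?_⟩
      rw [ra_mod]
      have e : c0 ψ + 2 * c1 ψ = -1 + 4 * k := by omega
      rw [e]
      push_cast
      have h8 : (8 : ZMod 8) = 0 := rfl
      linear_combination (k : ZMod 8) * h8
  -- the generator
  have hspan : Ideal.span {ψ} = Ideal.span {q.1} := by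
    rw [hψ]
    refine HC.hd.span _ ?_
    rw [Ideal.isCoprime_iff_sup_eq]
    have hm : (plq q).asIdeal.IsMaximal := (plq q).isMaximal
    by_contra h1
    have h2 := hm.eq_of_le h1 le_sup_left
    apply hf
    rw [h2]
    exact Ideal.mem_sup_right (Ideal.mem_span_singleton_self _)
  have hψ2 : ψ = q.1 ∨ ψ = -q.1 := by
    rw [Ideal.span_singleton_eq_span_singleton] at hspan
    obtain ⟨u, hu⟩ := hspan.symm
    rcases unit_eq u.isUnit with h1 | h1
    · left
      rw [← hu, h1, mul_one]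
    · right
      rw [← hu, h1]
      ring
  have hgoal : ps (Ideal.span {q.1}) = ψ := hψ.symm
  rw [hgoal]
  have hq2 := q.ra2
  have h22 : (2 : ZMod 8) ≠ -2 := by decide
  rcases hmod with ⟨h, h'⟩ | ⟨h, h'⟩ <;> rw [h] <;> rcases hψ2 with h3 | h3
  · rw [h3]
    push_cast
    ring
  · exfalso
    rw [h3, map_neg, mul_neg, hq2] at h'
    exact h22 h'.symm
  · exfalso
    rw [h3, hq2] at h'
    exact h22 h'
  · rw [h3]
    push_cast
    ring

end

end Pool.Agent.Lib.MP_1a91b9_ntV.L
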