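import Pool.Agent.Lib.MP_1a91b9_ntV.L.Two7
import Pool.Agent.Lib.MP_1a91b9_ntV.L.Def7
import Pool.Agent.Lib.MP_1a91b9_nuT.S3.Lat

/-!
# The field `ℚ(√-7)`: the local factor at the place of `√-7`
-/

set_option autoImplicit false
set_option linter.unusedSectionVars false

namespace Pool.Agent.Lib.MP_1a91b9_ntV.L

open NumberField IsDedekindDomain Polynomial WeierstrassCurve Pool.Agent.Lib.MP_1a91b9_nt
  Pool.Agent.Lib.MP_1a91b9_nuT Pool.Agent.Lib.MP_1a91b9_ntV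
open Pool.Agent.Lib.MP_1a91b9_ntQ (em em_mul em_neg em_sub em_ofNat em_one em_ne)

noncomputable section

variable [CD] [hv : V7]

/-- the element `√-7` -/
def w7 : 𝓞 K := 1 - 2 * ta

theorem w7_sq : (w7 : 𝓞 K) ^ 2 = -7 := by
  rw [w7]
  linear_combination 4 * ta_sq

theorem coo_w7 : c0 (w7 : 𝓞 K) = 1 ∧ c1 (w7 : 𝓞 K) = -2 := coo_of (by rw [w7]; push_cast; ring)

theorem absNorm_w7 : Ideal.absNorm (Ideal.span {(w7 : 𝓞 K)}) = 7 := by
  rw [Ideal.absNorm_span_singleton, norm_eq, coo_w7.1, coo_w7.2]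
  norm_num

theorem span_w7 {v : HeightOneSpectrum (𝓞 K)} (h7 : (7 : 𝓞 K) ∈ v.asIdeal) :
    v.asIdeal = Ideal.span {w7} := by
  have h1 : (w7 : 𝓞 K) ∈ v.asIdeal := by
    refine v.isPrime.mem_of_pow_mem 2 ?_
    rw [w7_sq, neg_mem_iff]
    exact h7
  have hp : (Ideal.span {(w7 : 𝓞 K)}).IsPrime := by
    refine Ideal.isPrime_of_irreducible_absNorm ?_
    rw [absNorm_w7]
    exact (Nat.prime_iff.1 (by norm_num : Nat.Prime 7)).irreducible
  have hm : (Ideal.span {(w7 : 𝓞 K)}).IsMaximal := hp.isMaximal (by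
    rw [Ne, Ideal.span_singleton_eq_bot]
    intro h
    have := w7_sq (hv := hv)
    rw [h] at this
    norm_num at this)
  refine (hm.eq_of_le v.isPrime.ne_top ?_).symm
  rw [Ideal.span_singleton_le_iff_mem]
  exact h1

/-- the conjugate of a generator of the place of `√-7` -/
theorem em_conj7 {c : 𝓞 K} (hc : Ideal.span {c} = Ideal.span {w7}) :
    em c ^ 2 = -7 ∧ (starRingEnd ℂ) (em c) = -em c := by
  have hw : em (w7 : 𝓞 K) = 1 - 2 * zt := by
    rw [w7, em_sub, em_one, em_mul, em_ofNat]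
    rfl
  have hcj : (starRingEnd ℂ) (em (w7 : 𝓞 K)) = -em w7 := by
    rw [hw, map_sub, map_one, map_mul, map_ofNat, S3.conj_zt, hv.tr]
    push_cast
    ring
  have hsq : em (w7 : 𝓞 K) ^ 2 = -7 := by
    rw [hw]
    linear_combination 4 * zt_sq
  rw [Ideal.span_singleton_eq_span_singleton] at hc
  obtain ⟨u, hu⟩ := hc
  rcases unit_eq u.isUnit with h1 | h1
  · rw [h1, mul_one] at hu
    rw [hu]
    exact ⟨hsq, hcj⟩
  · rw [h1, mul_neg, mul_one] at hu
    have e : c = -w7 := by rw [← hu, neg_neg]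
    rw [e, em_neg, map_neg, hcj]
    exact ⟨by linear_combination hsq, rfl⟩

/-- **The local factor at the place of `√-7`.** -/
theorem odd_sq7 {D c : 𝓞 K} {v : HeightOneSpectrum (𝓞 K)} (hc : v.asIdeal = Ideal.span {c})
    (h7 : (7 : 𝓞 K) ∈ v.asIdeal) (hD : D ∉ v.asIdeal) {e : ℂ} (he : e ^ 2 = 1) (x : ℂ) :
    aeval x (locPoly (WE D) v) = (1 - e * em c * x) * (1 - e * (starRingEnd ℂ) (em c) * x) := by
  have hw := span_w7 h7
  have hN : Ideal.absNorm v.asIdeal = 7 := by rw [hw, absNorm_w7]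
  have ht : (tb ^ 4 : 𝓞 K) - 4 ∈ v.asIdeal := by
    rw [hw, Ideal.mem_span_singleton]
    refine ⟨-1 - ta, ?_⟩
    have h1 := ta_sq (hv := hv)
    rw [w7]
    have e1 : (tb : 𝓞 K) ^ 4 = (tb - 2) ^ 2 := by rw [← tb_sq]; ring
    rw [e1]
    linear_combination -h1
  have hl := Pool.Agent.Lib.MP_1a91b9_ntV.L.loc_seven (N := K) (v := v) hN (WE D) (D := D)
    (t := tb ^ 4) (by
      rw [WE]
      have e1 : (((tb ^ 4 : 𝓞 K)) : K) = ((tb : 𝓞 K) : K) ^ 4 :=
        map_pow (algebraMap (𝓞 K) K) tb 4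
      rw [e1]) hD ht
  obtain ⟨h1, h2⟩ := em_conj7 (hc.symm.trans hw)
  rw [hl, h2]
  simp only [map_add, map_one, map_mul, map_ofNat, map_pow, aeval_X]
  linear_combination (-7 * x ^ 2) * he + (e ^ 2 * x ^ 2) * h1

end

end Pool.Agent.Lib.MP_1a91b9_ntV.L
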