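import Pool.Agent.Lib.MP_1a91b9_ntV.L.Plc7
import Pool.Agent.Lib.MP_1a91b9_ntV.L.Sq7
import Pool.Agent.Lib.MP_1a91b9_ntV.L.Bad7
import Pool.Agent.Lib.MP_1a91b9_ntV.L.Sg7

/-!
# The field `ℚ(√-7)`: all the Euler factors of the curve of an element

`locF (D : 𝓞 K7) : LocF D` : the hypothesis of `serF` (file `Plc7`).
-/

set_option autoImplicit false
set_option linter.unusedSectionVars false

namespace Pool.Agent.Lib.MP_1a91b9_ntV.L

open NumberField IsDedekindDomain Polynomial WeierstrassCurve Pool.Agent.Lib.MP_1a91b9_nt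
  Pool.Agent.Lib.MP_1a91b9_nuT Pool.Agent.Lib.MP_1a91b9_nuX Pool.Agent.Lib.MP_1a91b9_nuX.DB
  Pool.Agent.Lib.MP_1a91b9_ntV
open Pool.Agent.Lib.MP_1a91b9_ntQ (em em_mul em_neg em_sub em_ofNat em_one em_ne em_add em_intCast)

noncomputable section

section gen

variable [CD] [hv : V7]

theorem conj_em (c : 𝓞 K) : (starRingEnd ℂ) (em c) = em (MP_1a91b9_nuT.cj c) := by
  change (starRingEnd ℂ) (embK (c : K)) = embK ((MP_1a91b9_nuT.cj c : 𝓞 K) : K)
  rw [← emb_cj]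

theorem em_add_ab : em (ta : 𝓞 K) + em tb = 1 := by
  rw [← em_add, ← em_one]
  congr 1
  rw [tb]
  ring

theorem em_mul_ab : em (ta : 𝓞 K) * em tb = 2 := by
  rw [← em_mul, ta_mul_tb, em_ofNat]

/-- **(D)** : the place of `a`, good reduction -/
theorem pa7 (D : 𝓞 K) (v : HeightOneSpectrum (𝓞 K)) (hv' : v.asIdeal = Ideal.span {ta})
    (h : ta ^ 2 ∣ D + 1) (x : ℂ) : aeval x (locPoly (WE D) v) =
      (1 - ((if ra D = 7 then -1 else 1 : ℤ) : ℂ) * em ta * x) *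
        (1 - ((if ra D = 7 then -1 else 1 : ℤ) : ℂ) * (starRingEnd ℂ) (em ta) * x) := by
  obtain rfl : v = pla := HeightOneSpectrum.ext hv'
  have hr : ra D = 7 ∨ ra D = 3 := by
    rw [ta2_dvd, map_add, map_one] at h
    revert h
    generalize ra D = u
    revert u
    decide
  obtain ⟨h1, h2⟩ := loc_a_good D
  have hs := em_add_ab (hv := hv)
  have hm := em_mul_ab (hv := hv)
  rw [conj_em, cj_ta]
  rcases hr with hr | hr
  · rw [h1 hr, if_pos hr]
    simp only [map_add, map_one, map_mul, map_ofNat, map_pow, aeval_X]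
    push_cast
    linear_combination (-x) * hs - x ^ 2 * hm
  · rw [h2 hr, if_neg (by rw [hr]; decide)]
    simp only [map_add, map_sub, map_one, map_mul, map_ofNat, map_pow, aeval_X]
    push_cast
    linear_combination x * hs - x ^ 2 * hm

/-- **(C)** : the place of the conjugate of `a`, good reduction -/
theorem pb7 (D : 𝓞 K) (v : HeightOneSpectrum (𝓞 K)) (hv' : v.asIdeal = Ideal.span {tb})
    (h : tb ^ 2 ∣ D - 1) (x : ℂ) : aeval x (locPoly (WE D) v) =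
      (1 - ((if rb D = 1 then -1 else 1 : ℤ) : ℂ) * em tb * x) *
        (1 - ((if rb D = 1 then -1 else 1 : ℤ) : ℂ) * (starRingEnd ℂ) (em tb) * x) := by
  obtain rfl : v = plb := HeightOneSpectrum.ext hv'
  have hr : rb D = 1 ∨ rb D = 5 := by
    rw [tb2_dvd, map_sub, map_one] at h
    revert h
    generalize rb D = u
    revert u
    decide
  obtain ⟨h1, h2⟩ := loc_b_good D
  have hs := em_add_ab (hv := hv)
  have hm := em_mul_ab (hv := hv)
  rw [conj_em, cj_tb]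
  rcases hr with hr | hr
  · rw [h1 hr, if_pos hr]
    simp only [map_add, map_one, map_mul, map_ofNat, map_pow, aeval_X]
    push_cast
    linear_combination (-x) * hs - x ^ 2 * hm
  · rw [h2 hr, if_neg (by rw [hr]; decide)]
    simp only [map_add, map_sub, map_one, map_mul, map_ofNat, map_pow, aeval_X]
    push_cast
    linear_combination x * hs - x ^ 2 * hm

/-- **(B)** : a prime which divides the element once -/
theorem bad7 (D : 𝓞 K) (q : Pg7) (v : HeightOneSpectrum (𝓞 K)) (hv' : v.asIdeal = Ideal.span {q.1})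
    (h1 : q.1 ∣ D) (h2 : ¬ q.1 ^ 2 ∣ D) : locPoly (WE D) v = 1 := by
  refine loc_bad_odd ?_ ?_
  · rw [hv', Ideal.mem_span_singleton]
    exact q.not_two
  · rw [val_exact hv' (n := 1) (by rwa [pow_one]) h2]
    exact MP_1a91b9_ntL.not_sq_exp (by norm_num)

end gen

/-- **(A)** : the odd places of good reduction -/
theorem odd7 (D : 𝓞 K7) (q : Pg7) (v : HeightOneSpectrum (𝓞 K7))
    (hv' : v.asIdeal = Ideal.span {q.1}) (hD : ¬ q.1 ∣ D) (e : ℤ)
    (he : (e = 1 ∧ (∃ s, q.1 ∣ s ^ 2 - D)) ∨ (e = -1 ∧ ¬ ∃ s, q.1 ∣ s ^ 2 - D)) (x : ℂ) :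
    aeval x (locPoly (WE D) v) = (1 - (e : ℂ) * em q.1 * x) *
        (1 - (e : ℂ) * (starRingEnd ℂ) (em q.1) * x) := by
  obtain rfl : v = plq q := HeightOneSpectrum.ext hv'
  have he1 : e ^ 2 = 1 := by
    rcases he with ⟨h, -⟩ | ⟨h, -⟩ <;> rw [h] <;> norm_num
  have hD' : D ∉ (plq q).asIdeal := by rwa [mem_plq]
  by_cases h7 : (7 : 𝓞 K7) ∈ (plq q).asIdeal
  · exact odd_sq7 hv' h7 hD' (by exact_mod_cast congrArg (Int.cast : ℤ → ℂ) he1) x
  have hr : ¬ q.1 ∣ (rr : 𝓞 K7) := by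
    intro h
    apply h7
    rw [mem_plq]
    have h2 : q.1 ∣ (rr : 𝓞 K7) ^ 2 := h.trans (dvd_pow_self _ two_ne_zero)
    rw [rr_sq, dvd_neg] at h2
    exact h2
  have hr' : (rr : 𝓞 K7) ∉ (plq q).asIdeal := by rwa [mem_plq]
  have hDr : ¬ q.1 ∣ D * rr := by
    intro h
    rcases q.prime.dvd_or_dvd h with h | h
    · exact hD h
    · exact hr h
  have hce : ch q D = e := by
    rcases he with ⟨h, s, hs⟩ | ⟨h, hs⟩
    · rw [h, ch_one_iff hD]
      exact ⟨s, by rw [← neg_sub, dvd_neg]; exact hs⟩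
    · rw [h]
      refine (ch_or hD).resolve_left fun h2 => hs ?_
      obtain ⟨s, hs⟩ := (ch_one_iff hD).1 h2
      exact ⟨s, by rw [← neg_sub, dvd_neg]; exact hs⟩
  have he2 : (ch q (D * rr) = 1 ∧ ∃ t : 𝓞 K7, t ^ 2 - D * rr ∈ (plq q).asIdeal) ∨
      (ch q (D * rr) = -1 ∧ ¬ ∃ t : 𝓞 K7, t ^ 2 - D * rr ∈ (plq q).asIdeal) := by
    by_cases h : ∃ t : 𝓞 K7, t ^ 2 - D * rr ∈ (plq q).asIdeal
    · refine Or.inl ⟨?_, h⟩
      obtain ⟨t, ht⟩ := h
      have ht' := mem_plq.1 ht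
      exact (ch_one_iff hDr).2 ⟨t, by rw [← neg_sub, dvd_neg]; exact ht'⟩
    · refine Or.inr ⟨?_, h⟩
      refine (ch_or hDr).resolve_left fun h2 => h ?_
      obtain ⟨t, ht⟩ := (ch_one_iff hDr).1 h2
      exact ⟨t, mem_plq.2 (by rw [← neg_sub, dvd_neg]; exact ht)⟩
  have key := MP_1a91b9_ntL.locK_tw_eval (v := plq q) (f_notMem (two_notMem q) hr') (two_notMem q)
    (d := D * rr) (by rwa [mem_plq]) (WE D) (C7 D) (C7_smul D) (e := ch q (D * rr)) he2 x
  have hps : embK (((ps (plq q).asIdeal : 𝓞 K7)) : K7) = ((ch q rr : ℤ) : ℂ) * em q.1 := by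
    have h1 : ps (plq q).asIdeal = (ch q rr : 𝓞 K7) * q.1 := ps_prime q hr
    rw [h1]
    change em (((ch q rr : ℤ) : 𝓞 K7) * q.1) = _
    rw [em_mul, em_intCast]
  rw [key, hps, ch_mul, hce]
  have h2 : ((ch q rr : ℤ) : ℂ) ^ 2 = 1 := by exact_mod_cast congrArg (Int.cast : ℤ → ℂ) (ch_sq hr)
  rw [map_mul, map_intCast]
  push_cast
  obtain ⟨c, hc⟩ : ∃ c : ℂ, c = ((ch q rr : ℤ) : ℂ) := ⟨_, rfl⟩
  rw [← hc] at h2 ⊢
  have e1 : (e : ℂ) * c * (c * em q.1) = (e : ℂ) * em q.1 := by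
    linear_combination ((e : ℂ) * em q.1) * h2
  have e2 : (e : ℂ) * c * (c * (starRingEnd ℂ) (em q.1)) = (e : ℂ) * (starRingEnd ℂ) (em q.1) := by
    linear_combination ((e : ℂ) * (starRingEnd ℂ) (em q.1)) * h2
  rw [e1, e2]

/-- **All the Euler factors of `WE D` in terms of `D`.** -/
theorem locF (D : 𝓞 K7) : LocF D where
  odd := odd7 D
  bad := bad7 D
  pa := pa7 D
  pa_bad := by
    intro v hv' h1 h2
    obtain rfl : v = pla := HeightOneSpectrum.ext hv'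
    exact loc_a_bad h1 h2
  pb := pb7 D
  pb_bad := by
    intro v hv' h1 h2
    obtain rfl : v = plb := HeightOneSpectrum.ext hv'
    exact loc_b_bad h1 h2

/-- **The L-series of `WE (dE d0 d1 d2 S)` is entire; its value at `1`.** -/
theorem serD (d0 d1 d2 : ZMod 2) (S : Finset Pg7) :
    ∃ g : ℂ → ℂ, Differentiable ℂ g ∧ (∀ s : ℂ, 3 / 2 < s.re → g s = (WE (dE d0 d1 d2 S)).LSeries s) ∧
      g 1 = ((‖O7‖ ^ 2 * ‖LS d0 d1 d2 S‖ ^ 2 / (4 * ‖em (cf d0 d1 d2 S)‖ ^ 2) : ℝ) : ℂ) :=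
  serF (locF _)

end

end Pool.Agent.Lib.MP_1a91b9_ntV.L
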