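import Pool.Agent.Lib.MP_1a91b9_ntV.A.Rec7
import Pool.Agent.Lib.MP_1a91b9_ntV.L.Def7

/-!
# The field `ℚ(√-7)`: the dictionary between the element `dE d0 d1 d2 S` and the character `ph d0 d1 d2 S`
-/

set_option autoImplicit false
set_option linter.unusedSectionVars false

namespace Pool.Agent.Lib.MP_1a91b9_ntV.L

open NumberField Finset Pool.Agent.Lib.MP_1a91b9_nuT Pool.Agent.Lib.MP_1a91b9_ntV

noncomputable section

variable [CD] [hv : V7]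

theorem ch_sg {q : Pg7} {x : 𝓞 K} (h : ¬ q.1 ∣ x) : ch q x = sg2 (sb q x) := by
  rw [sb]
  rcases ch_or h with h1 | h1
  · rw [h1, if_neg (by norm_num)]
    rfl
  · rw [h1, if_pos rfl]
    rfl

theorem chS_sg {S : Finset Pg7} {x : 𝓞 K} (h : ∀ q ∈ S, ¬ q.1 ∣ x) :
    chS S x = sg2 (∑ q ∈ S, sb q x) := by
  rw [chS, sg2_sum]
  exact prod_congr rfl fun q hq => ch_sg (h q hq)

theorem zcases (i : ZMod 2) : i = 0 ∨ i = 1 := by
  revert i
  decide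

theorem v0 : (0 : ZMod 2).val = 0 := rfl

theorem v1 : (1 : ZMod 2).val = 1 := rfl

/-! ### the bits of the element -/

section
variable (d0 d1 d2 : ZMod 2) (S : Finset Pg7)

theorem ra_dE : ra (dE d0 d1 d2 S) = (-1) ^ d0.val * 6 ^ d1.val * 3 ^ d2.val * ra (DD S) := by
  rw [dE, map_mul, map_mul, map_mul, map_pow, map_pow, map_pow, map_neg, map_one, ra_ta, ra_tb]

theorem rb_dE : rb (dE d0 d1 d2 S) = (-1) ^ d0.val * 3 ^ d1.val * 6 ^ d2.val * rb (DD S) := by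
  rw [dE, map_mul, map_mul, map_mul, map_pow, map_pow, map_pow, map_neg, map_one, rb_ta, rb_tb]

theorem dE_not {q : Pg7} (h : q ∉ S) : ¬ q.1 ∣ dE d0 d1 d2 S := by
  intro h1
  have h2 : ¬ q.1 ∣ DD S := by
    intro h3
    obtain ⟨r, hr, h4⟩ := (q.prime.dvd_finsetProd_iff _).1 h3
    exact Pg7.not_dvd (p := q) (q := r) (by
      rintro rfl
      exact h hr) h4
  rw [dE] at h1
  rcases q.prime.dvd_mul.1 h1 with h3 | h3
  · rcases q.prime.dvd_mul.1 h3 with h4 | h4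
    · rcases q.prime.dvd_mul.1 h4 with h5 | h5
      · have h6 := q.prime.dvd_of_dvd_pow h5
        rw [dvd_neg] at h6
        exact q.prime.not_isUnit (isUnit_of_dvd_one h6)
      · exact q_not_ta q (q.prime.dvd_of_dvd_pow h5)
    · exact q_not_tb q (q.prime.dvd_of_dvd_pow h4)
  · exact h2 h3

theorem DD_not {q : Pg7} {S : Finset Pg7} (h : q ∉ S) : ¬ q.1 ∣ DD S := by
  intro h3
  obtain ⟨r, hr, h4⟩ := (q.prime.dvd_finsetProd_iff _).1 h3
  exact Pg7.not_dvd (p := q) (q := r) (by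
    rintro rfl
    exact h hr) h4

theorem sb_pow {q : Pg7} {x : 𝓞 K} (hx : ¬ q.1 ∣ x) (d : ZMod 2) :
    sb q (x ^ d.val) = d * sb q x := by
  rcases zcases d with rfl | rfl
  · rw [v0, pow_zero, sb_one, zero_mul]
  · rw [v1, pow_one, one_mul]

theorem sb_dE {q : Pg7} (h : q ∉ S) : sb q (dE d0 d1 d2 S) =
    d0 * aa q + d1 * (aa q + b1 q) + d2 * (aa q + b2 q) + ∑ p ∈ S, sb q p.1 := by
  have n0 : ¬ q.1 ∣ (-1 : 𝓞 K) := by
    intro h6
    rw [dvd_neg] at h6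
    exact q.prime.not_isUnit (isUnit_of_dvd_one h6)
  have n1 := q_not_ta q
  have n2 := q_not_tb q
  have m0 : ¬ q.1 ∣ (-1 : 𝓞 K) ^ d0.val := fun h => n0 (q.prime.dvd_of_dvd_pow h)
  have m1 : ¬ q.1 ∣ (ta : 𝓞 K) ^ d1.val := fun h => n1 (q.prime.dvd_of_dvd_pow h)
  have m2 : ¬ q.1 ∣ (tb : 𝓞 K) ^ d2.val := fun h => n2 (q.prime.dvd_of_dvd_pow h)
  have m3 := DD_not h
  have m4 : ¬ q.1 ∣ (-1 : 𝓞 K) ^ d0.val * ta ^ d1.val := fun h =>
    (q.prime.dvd_mul.1 h).elim m0 m1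
  have m5 : ¬ q.1 ∣ (-1 : 𝓞 K) ^ d0.val * ta ^ d1.val * tb ^ d2.val := fun h =>
    (q.prime.dvd_mul.1 h).elim m4 m2
  rw [dE, sb_mul m5 m3, sb_mul m4 m2, sb_mul m0 m1, sb_pow n0, sb_pow n1, sb_pow n2, sb_neg_one,
    sb_ta, sb_tb, sb_prod h]

/-! ### the odd primes -/

theorem lA_q (i j : ZMod 2) (q : Pg7) : lA i j q.1 = sg2 (j * b1 q) := by
  rw [lA, b1]
  have h := q.ra2
  revert h
  generalize ra q.1 = u
  revert i j u
  decide

theorem lB_q (i j : ZMod 2) (q : Pg7) : lB i j q.1 = sg2 (i * aa q + j * (aa q + b2 q)) := by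
  rw [lB, aa, b2]
  exact lc_unit i j (odd_rb q.not_tb)

theorem ph_q {q : Pg7} (h : q ∉ S) : ph d0 d1 d2 S q.1 = ch q (dE d0 d1 d2 S) := by
  rw [ch_sg (dE_not d0 d1 d2 S h), sb_dE d0 d1 d2 S h, ph, lA_q, lB_q, chS_sg (fun p hp => Pg7.not_dvd (by
    rintro rfl
    exact h hp)), ← sg2_add, ← sg2_add]
  congr 1
  have h1 : ∑ p ∈ S, sb p q.1 = ∑ p ∈ S, sb q p.1 + AA S * aa q := by
    rw [AA, sum_mul, ← sum_add_distrib]
    exact sum_congr rfl fun p hp => sb_recip p q (by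
      rintro rfl
      exact h hp)
  rw [h1]
  generalize ∑ p ∈ S, sb q p.1 = u
  generalize AA S = w
  generalize aa q = x
  generalize b1 q = y
  generalize b2 q = z
  revert d0 d1 d2 u w x y z
  decide

theorem ph_mem {q : Pg7} (h : q ∈ S) : ph d0 d1 d2 S q.1 = 0 := by
  rw [ph, chS_zero h dvd_rfl, mul_zero]

/-! ### the place `a` -/

theorem ta_iff : ta ^ 2 ∣ dE d0 d1 d2 S + 1 ↔ ce (1 + d0 + d2) d1 = 0 := by
  rw [ta2_dvd, map_add, map_one, ra_dE]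
  have h1 := bE_ra_DD S
  have h2 := odd_ra (DD_ta S)
  revert h1 h2
  generalize ra (DD S) = u
  revert d0 d1 d2 u
  decide

theorem ph_ta_bad (h : ¬ ta ^ 2 ∣ dE d0 d1 d2 S + 1) : ph d0 d1 d2 S ta = 0 := by
  rw [ta_iff] at h
  by_contra h1
  have h2 := (ph_ne_iff d0 d1 d2 S).1 h1
  rw [cf, IsCoprime.mul_right_iff, IsCoprime.mul_right_iff, cop_pow_ta] at h2
  rcases h2.1.1 with h3 | h3
  · exact h h3
  · exact h3 dvd_rfl

theorem ph_ta (h : ta ^ 2 ∣ dE d0 d1 d2 S + 1) :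
    ph d0 d1 d2 S ta = if ra (dE d0 d1 d2 S) = 7 then -1 else 1 := by
  have h1 : ∑ q ∈ S, sb q ta = AA S + B1 S := by
    rw [AA, B1, ← sum_add_distrib]
    exact sum_congr rfl fun q _ => sb_ta q
  rw [ph, lA, lB, ra_ta, rb_ta, chS_sg fun q _ => q_not_ta q, h1, ra_dE, B1, ← bF_ra_DD]
  rw [ta2_dvd, map_add, map_one, ra_dE] at h
  have h3 := bE_ra_DD S
  have h4 := odd_ra (DD_ta S)
  revert h h3 h4
  generalize ra (DD S) = u
  generalize AA S = w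
  revert d0 d1 d2 u w
  decide

/-! ### the place `ab` -/

theorem tb_iff : tb ^ 2 ∣ dE d0 d1 d2 S - 1 ↔ ce (d0 + d1 + AA S) d2 = 0 := by
  rw [tb2_dvd, map_sub, map_one, rb_dE, AA, ← bE_rb_DD]
  have h2 := odd_rb (DD_tb S)
  revert h2
  generalize rb (DD S) = u
  revert d0 d1 d2 u
  decide

theorem ph_tb_bad (h : ¬ tb ^ 2 ∣ dE d0 d1 d2 S - 1) : ph d0 d1 d2 S tb = 0 := by
  rw [tb_iff] at h
  by_contra h1
  have h2 := (ph_ne_iff d0 d1 d2 S).1 h1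
  rw [cf, IsCoprime.mul_right_iff, IsCoprime.mul_right_iff, cop_pow_tb] at h2
  rcases h2.1.2 with h3 | h3
  · exact h h3
  · exact h3 dvd_rfl

theorem ph_tb (h : tb ^ 2 ∣ dE d0 d1 d2 S - 1) :
    ph d0 d1 d2 S tb = if rb (dE d0 d1 d2 S) = 1 then -1 else 1 := by
  have h1 : ∑ q ∈ S, sb q tb = AA S + B2 S := by
    rw [AA, B2, ← sum_add_distrib]
    exact sum_congr rfl fun q _ => sb_tb q
  rw [ph, lA, lB, ra_tb, rb_tb, chS_sg fun q _ => q_not_tb q, h1, rb_dE, B2, ← bF_rb_DD, AA,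
    ← bE_rb_DD]
  rw [tb2_dvd, map_sub, map_one, rb_dE] at h
  have h4 := odd_rb (DD_tb S)
  revert h h4
  generalize rb (DD S) = u
  revert d0 d1 d2 u
  decide

end

end

end Pool.Agent.Lib.MP_1a91b9_ntV.L
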