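import Pool.Agent.Lib.MP_1a91b9_ntV.L.Ser7
import Pool.Agent.Lib.MP_1a91b9_ntV.L.Dic7

/-!
# The field `ℚ(√-7)`: the places, and the L-series of the curve `WE (dE d0 d1 d2 S)` from the Euler factors
in terms of the element
-/

set_option autoImplicit false
set_option linter.unusedSectionVars false

namespace Pool.Agent.Lib.MP_1a91b9_ntV.L

open NumberField IsDedekindDomain Polynomial WeierstrassCurve Pool.Agent.Lib.MP_1a91b9_nt
  Pool.Agent.Lib.MP_1a91b9_nuT Pool.Agent.Lib.MP_1a91b9_ntV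
open Pool.Agent.Lib.MP_1a91b9_ntQ (em em_mul em_neg em_zero em_one em_ne)
open Pool.Agent.Lib.MP_1a91b9_ntW (LG)

noncomputable section

variable [CD] [hv : V7]

theorem span_neg7 (c : 𝓞 K) : (Ideal.span {-c} : Ideal (𝓞 K)) = Ideal.span {c} := by
  rw [Ideal.span_singleton_eq_span_singleton]
  exact (Associated.refl c).neg_left

theorem span_of_mem {v : HeightOneSpectrum (𝓞 K)} {p : 𝓞 K} (hp : Prime p)
    (h : p ∈ v.asIdeal) : v.asIdeal = Ideal.span {p} := by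
  have hm : (Ideal.span {p} : Ideal (𝓞 K)).IsMaximal :=
    Ideal.IsPrime.isMaximal ((Ideal.span_singleton_prime hp.ne_zero).2 hp) (by
      rw [Ne, Ideal.span_singleton_eq_bot]
      exact hp.ne_zero)
  refine (hm.eq_of_le v.isPrime.ne_top ?_).symm
  rw [Ideal.span_singleton_le_iff_mem]
  exact h

/-- **The places of `K`.** -/
theorem place7 (v : HeightOneSpectrum (𝓞 K)) : v.asIdeal = Ideal.span {ta} ∨
    v.asIdeal = Ideal.span {tb} ∨ ∃ q : Pg7, v.asIdeal = Ideal.span {q.1} := by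
  by_cases h1 : ta ∈ v.asIdeal
  · exact Or.inl (span_of_mem ta_prime h1)
  by_cases h2 : tb ∈ v.asIdeal
  · exact Or.inr (Or.inl (span_of_mem tb_prime h2))
  refine Or.inr (Or.inr ?_)
  obtain ⟨c, hc⟩ := (IsPrincipalIdealRing.principal v.asIdeal).principal
  have hc' : v.asIdeal = Ideal.span {c} := hc
  have hc0 : c ≠ 0 := by
    rintro rfl
    apply v.ne_bot
    rw [hc', Ideal.span_singleton_eq_bot]
  have hp : Prime c := by
    rw [← Ideal.span_singleton_prime hc0, ← hc']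
    exact v.isPrime
  have hnot : ∀ p : 𝓞 K, Prime p → p ∉ v.asIdeal → ¬ p ∣ c := by
    intro p hp1 hpv hd
    have h3 := (hp1.associated_of_dvd hp hd)
    apply hpv
    rw [hc', ← Ideal.span_singleton_eq_span_singleton.2 h3]
    exact Ideal.mem_span_singleton_self p
  have n1 := hnot ta ta_prime h1
  have n2 := hnot tb tb_prime h2
  have h4 := odd_ra n1
  have h5 : 2 * ra c = 2 ∨ 2 * ra (-c) = 2 := by
    rw [map_neg]
    revert h4
    generalize ra c = u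
    revert u
    decide
  rcases h5 with h5 | h5
  · exact ⟨⟨c, hp, by rw [ta2_dvd, map_sub, map_one, mul_sub, h5]; decide, n2⟩, hc'⟩
  · refine ⟨⟨-c, hp.neg, by rw [ta2_dvd, map_sub, map_one, mul_sub, h5]; decide, by
      rwa [dvd_neg]⟩, ?_⟩
    rw [hc', span_neg7]

/-- the Euler factors of the curve of an element, in terms of the element -/
structure LocF (D : 𝓞 K) : Prop where
  odd : ∀ (q : Pg7) (v : HeightOneSpectrum (𝓞 K)), v.asIdeal = Ideal.span {q.1} → ¬ q.1 ∣ D →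
    ∀ e : ℤ, (e = 1 ∧ (∃ s, q.1 ∣ s ^ 2 - D)) ∨ (e = -1 ∧ ¬ ∃ s, q.1 ∣ s ^ 2 - D) → ∀ x : ℂ,
      aeval x (locPoly (WE D) v) = (1 - (e : ℂ) * em q.1 * x) *
        (1 - (e : ℂ) * (starRingEnd ℂ) (em q.1) * x)
  bad : ∀ (q : Pg7) (v : HeightOneSpectrum (𝓞 K)), v.asIdeal = Ideal.span {q.1} → q.1 ∣ D →
    ¬ q.1 ^ 2 ∣ D → locPoly (WE D) v = 1
  pa : ∀ v : HeightOneSpectrum (𝓞 K), v.asIdeal = Ideal.span {ta} → ta ^ 2 ∣ D + 1 → ∀ x : ℂ,
      aeval x (locPoly (WE D) v) = (1 - ((if ra D = 7 then -1 else 1 : ℤ) : ℂ) * em ta * x) *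
        (1 - ((if ra D = 7 then -1 else 1 : ℤ) : ℂ) * (starRingEnd ℂ) (em ta) * x)
  pa_bad : ∀ v : HeightOneSpectrum (𝓞 K), v.asIdeal = Ideal.span {ta} → ¬ ta ^ 2 ∣ D + 1 →
    ¬ ta ^ 2 ∣ D → locPoly (WE D) v = 1
  pb : ∀ v : HeightOneSpectrum (𝓞 K), v.asIdeal = Ideal.span {tb} → tb ^ 2 ∣ D - 1 → ∀ x : ℂ,
      aeval x (locPoly (WE D) v) = (1 - ((if rb D = 1 then -1 else 1 : ℤ) : ℂ) * em tb * x) *
        (1 - ((if rb D = 1 then -1 else 1 : ℤ) : ℂ) * (starRingEnd ℂ) (em tb) * x)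
  pb_bad : ∀ v : HeightOneSpectrum (𝓞 K), v.asIdeal = Ideal.span {tb} → ¬ tb ^ 2 ∣ D - 1 →
    ¬ tb ^ 2 ∣ D → locPoly (WE D) v = 1

section
variable (d0 d1 d2 : ZMod 2) (S : Finset Pg7)

theorem not_ta_sq_dE : ¬ ta ^ 2 ∣ dE d0 d1 d2 S := by
  rw [ta2_dvd, ra_dE]
  have h2 := odd_ra (DD_ta S)
  revert h2
  generalize ra (DD S) = u
  revert d0 d1 d2 u
  decide

theorem not_tb_sq_dE : ¬ tb ^ 2 ∣ dE d0 d1 d2 S := by
  rw [tb2_dvd, rb_dE]
  have h2 := odd_rb (DD_tb S)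
  revert h2
  generalize rb (DD S) = u
  revert d0 d1 d2 u
  decide

theorem not_q_sq_dE (q : Pg7) : ¬ q.1 ^ 2 ∣ dE d0 d1 d2 S := by
  classical
  intro h
  by_cases hq : q ∈ S
  · have e : dE d0 d1 d2 S = q.1 * dE d0 d1 d2 (S.erase q) := by
      have : DD S = q.1 * DD (S.erase q) := by
        rw [DD, DD, Finset.mul_prod_erase S (fun q => q.1) hq]
      rw [dE, dE, this]
      ring
    rw [e, pow_two] at h
    have h1 := (mul_dvd_mul_iff_left q.prime.ne_zero).1 h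
    exact dE_not d0 d1 d2 _ (Finset.notMem_erase q S) h1
  · exact dE_not d0 d1 d2 S hq ((dvd_pow_self _ two_ne_zero).trans h)

theorem dvd_dE {q : Pg7} (hq : q ∈ S) : q.1 ∣ dE d0 d1 d2 S :=
  (Finset.dvd_prod_of_mem (fun q : Pg7 => q.1) hq).mul_left _

variable {d0 d1 d2 S}

/-- **All the Euler factors, with the character.** -/
theorem loc_all (H : LocF (dE d0 d1 d2 S)) (v : HeightOneSpectrum (𝓞 K)) (c : 𝓞 K)
    (hc : v.asIdeal = Ideal.span {c}) (x : ℂ) :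
    aeval x (locPoly (WE (dE d0 d1 d2 S)) v) = (1 - ((ph d0 d1 d2 S c : ℤ) : ℂ) * em c * x) *
      (1 - ((ph d0 d1 d2 S c : ℤ) : ℂ) * (starRingEnd ℂ) (em c) * x) := by
  -- one generator is enough
  have key : ∀ p : 𝓞 K, v.asIdeal = Ideal.span {p} →
      aeval x (locPoly (WE (dE d0 d1 d2 S)) v) = (1 - ((ph d0 d1 d2 S p : ℤ) : ℂ) * em p * x) *
        (1 - ((ph d0 d1 d2 S p : ℤ) : ℂ) * (starRingEnd ℂ) (em p) * x) →
      aeval x (locPoly (WE (dE d0 d1 d2 S)) v) = (1 - ((ph d0 d1 d2 S c : ℤ) : ℂ) * em c * x) *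
        (1 - ((ph d0 d1 d2 S c : ℤ) : ℂ) * (starRingEnd ℂ) (em c) * x) := by
    intro p hp h
    rw [hc, Ideal.span_singleton_eq_span_singleton] at hp
    obtain ⟨u, hu⟩ := hp
    rcases unit_eq u.isUnit with h1 | h1
    · rw [h1, mul_one] at hu
      rw [h, hu]
    · rw [h1, mul_neg, mul_one] at hu
      rw [h, ← hu, ph_neg, em_neg, map_neg]
      push_cast
      ring
  rcases place7 v with h | h | ⟨q, h⟩
  · refine key _ h ?_
    by_cases h1 : ta ^ 2 ∣ dE d0 d1 d2 S + 1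
    · rw [H.pa v h h1 x, ph_ta d0 d1 d2 S h1]
    · rw [H.pa_bad v h h1 (not_ta_sq_dE d0 d1 d2 S), ph_ta_bad d0 d1 d2 S h1]
      simp
  · refine key _ h ?_
    by_cases h1 : tb ^ 2 ∣ dE d0 d1 d2 S - 1
    · rw [H.pb v h h1 x, ph_tb d0 d1 d2 S h1]
    · rw [H.pb_bad v h h1 (not_tb_sq_dE d0 d1 d2 S), ph_tb_bad d0 d1 d2 S h1]
      simp
  · refine key _ h ?_
    by_cases hq : q ∈ S
    · rw [H.bad q v h (dvd_dE d0 d1 d2 S hq) (not_q_sq_dE d0 d1 d2 S q), ph_mem d0 d1 d2 S hq]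
      simp
    · rw [ph_q d0 d1 d2 S hq]
      have hn := dE_not d0 d1 d2 S hq
      refine H.odd q v h hn _ ?_ x
      by_cases h1 : ∃ s, q.1 ∣ s ^ 2 - dE d0 d1 d2 S
      · refine Or.inl ⟨?_, h1⟩
        rw [ch_one_iff hn]
        obtain ⟨s, hs⟩ := h1
        exact ⟨s, by rw [← neg_sub, dvd_neg]; exact hs⟩
      · refine Or.inr ⟨?_, h1⟩
        refine (ch_or hn).resolve_left fun h2 => h1 ?_
        obtain ⟨s, hs⟩ := (ch_one_iff hn).1 h2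
        exact ⟨s, by rw [← neg_sub, dvd_neg]; exact hs⟩

/-- **The L-series of the curve.** -/
theorem serF (H : LocF (dE d0 d1 d2 S)) :
    ∃ g : ℂ → ℂ, Differentiable ℂ g ∧ (∀ s : ℂ, 3 / 2 < s.re → g s = (WE (dE d0 d1 d2 S)).LSeries s) ∧
      g 1 = ((‖O7‖ ^ 2 * ‖LS d0 d1 d2 S‖ ^ 2 / (4 * ‖em (cf d0 d1 d2 S)‖ ^ 2) : ℝ) : ℂ) := by
  obtain ⟨g, h1, h2, h3⟩ := ser7 (loc_all H)
  refine ⟨g, h1, h2, ?_⟩
  rw [h3, Complex.mul_conj, Complex.normSq_eq_norm_sq]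
  congr 1
  have hO : ‖O7‖ ≠ 0 := norm_ne_zero_iff.2 O7_ne
  have hc : ‖em (cf d0 d1 d2 S)‖ ≠ 0 := norm_ne_zero_iff.2 (em_ne (cf_ne d0 d1 d2 S))
  rw [LS_eq_LG, norm_mul, norm_div, norm_mul, Complex.norm_ofNat]
  field_simp
  ring

theorem serF_ne (H : LocF (dE d0 d1 d2 S)) (h : LS d0 d1 d2 S ≠ 0) :
    ∃ g : ℂ → ℂ, Differentiable ℂ g ∧ (∀ s : ℂ, 3 / 2 < s.re → g s = (WE (dE d0 d1 d2 S)).LSeries s) ∧
      g 1 ≠ 0 := by
  obtain ⟨g, h1, h2, h3⟩ := serF H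
  refine ⟨g, h1, h2, ?_⟩
  rw [h3]
  have hO : ‖O7‖ ≠ 0 := norm_ne_zero_iff.2 O7_ne
  have hc : ‖em (cf d0 d1 d2 S)‖ ≠ 0 := norm_ne_zero_iff.2 (em_ne (cf_ne d0 d1 d2 S))
  have hL : ‖LS d0 d1 d2 S‖ ≠ 0 := norm_ne_zero_iff.2 h
  exact_mod_cast (by positivity : ‖O7‖ ^ 2 * ‖LS d0 d1 d2 S‖ ^ 2 /
    (4 * ‖em (cf d0 d1 d2 S)‖ ^ 2) ≠ 0)

end

end

end Pool.Agent.Lib.MP_1a91b9_ntV.L
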