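import Pool.Agent.Lib.MP_1a91b9_ntV.A.Fin7
import Pool.Agent.Lib.MP_1a91b9_ntW.A.Gen8
import Pool.Agent.Lib.MP_1a91b9_ntQ.A.SerG

/-!
# The field `ℚ(√-7)`: the L-series of a curve with the Euler factors `ph c * c`, its value at `1` and the
primitive sum `LS`
-/

set_option autoImplicit false
set_option linter.unusedSectionVars false

namespace Pool.Agent.Lib.MP_1a91b9_ntV.L

open NumberField IsDedekindDomain Polynomial WeierstrassCurve Pool.Agent.Lib.MP_1a91b9_nt
  Pool.Agent.Lib.MP_1a91b9_nuT Pool.Agent.Lib.MP_1a91b9_ntV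
open Pool.Agent.Lib.MP_1a91b9_nuT.S4 (Lf)
open Pool.Agent.Lib.MP_1a91b9_ntQ (em em_mul em_neg em_zero em_one em_ne Ser_main)
open Pool.Agent.Lib.MP_1a91b9_ntW (IsNor Chr pG LG psK psK_span psK_of_coprime pG_neg RepsG)

noncomputable section

variable [CD] [hv : V7]

/-- the elements of character one -/
def PN (d0 d1 d2 : ZMod 2) (S : Finset Pg7) (c : 𝓞 K) : Prop := ph d0 d1 d2 S c = 1

section
variable {d0 d1 d2 : ZMod 2} {S : Finset Pg7}

theorem ph_or {c : 𝓞 K} (h : IsCoprime c (cf d0 d1 d2 S)) :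
    ph d0 d1 d2 S c = 1 ∨ ph d0 d1 d2 S c = -1 := by
  have h2 := ph_sq d0 d1 d2 S ((ph_ne_iff d0 d1 d2 S).2 h)
  have h3 : (ph d0 d1 d2 S c - 1) * (ph d0 d1 d2 S c + 1) = 0 := by linear_combination h2
  rcases mul_eq_zero.1 h3 with h4 | h4
  · exact Or.inl (sub_eq_zero.1 h4)
  · exact Or.inr (eq_neg_of_add_eq_zero_left h4)

theorem ph_not {c : 𝓞 K} (h : ¬ IsCoprime c (cf d0 d1 d2 S)) : ph d0 d1 d2 S c = 0 := by
  by_contra h1
  exact h ((ph_ne_iff d0 d1 d2 S).1 h1)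

theorem PN_cop {c : 𝓞 K} (h : PN d0 d1 d2 S c) : IsCoprime c (cf d0 d1 d2 S) := by
  refine (ph_ne_iff d0 d1 d2 S).1 ?_
  rw [show ph d0 d1 d2 S c = 1 from h]
  exact one_ne_zero

instance isNorN : IsNor (PN d0 d1 d2 S) (cf d0 d1 d2 S) where
  ne := cf_ne d0 d1 d2 S
  one := ph_one d0 d1 d2 S
  mul a b ha hb := by
    have ha' : ph d0 d1 d2 S a = 1 := ha
    have hb' : ph d0 d1 d2 S b = 1 := hb
    rw [PN, ph_mul, ha', hb', mul_one]
  cop a ha := PN_cop ha
  congr a b h hb := by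
    have hb' : ph d0 d1 d2 S b = 1 := hb
    rw [PN, ph_per d0 d1 d2 S h, hb']
  inj u a ha hua := by
    have ha' : ph d0 d1 d2 S a = 1 := ha
    rcases unit_eq u.isUnit with h | h
    · exact Units.ext h
    · exfalso
      have h1 : ph d0 d1 d2 S ((u : 𝓞 K) * a) = 1 := hua
      rw [h, neg_one_mul, ph_neg, ha'] at h1
      norm_num at h1
  surj a ha := by
    rcases ph_or ha with h | h
    · refine ⟨1, ?_⟩
      rw [Units.val_one, one_mul]
      exact h
    · refine ⟨-1, ?_⟩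
      rw [Units.val_neg, Units.val_one, neg_one_mul]
      change ph d0 d1 d2 S (-a) = 1
      rw [ph_neg, h, neg_neg]

/-- the trivial function -/
def oneN (_ : 𝓞 K) : ℂ := 1

theorem chrN : Chr (PN d0 d1 d2 S) (cf d0 d1 d2 S) (cf d0 d1 d2 S) oneN where
  ne := cf_ne d0 d1 d2 S
  dvd := dvd_rfl
  one := rfl
  mul _ _ _ _ := (mul_one (1 : ℂ)).symm
  le _ _ := norm_one.le
  zero _ ha h := absurd (PN_cop ha) h
  per _ _ _ _ := rfl

/-- the value of the Hecke character at a principal ideal -/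
theorem psN {c : 𝓞 K} (hc : IsCoprime c (cf d0 d1 d2 S)) :
    psK (PN d0 d1 d2 S) (Ideal.span {c}) = ((ph d0 d1 d2 S c : ℤ) : 𝓞 K) * c := by
  rcases ph_or hc with h | h
  · rw [psK_span (f := cf d0 d1 d2 S) c h, h, Int.cast_one, one_mul]
  · have h1 : PN d0 d1 d2 S (-c) := by
      rw [PN, ph_neg, h, neg_neg]
    have e1 : Ideal.span {c} = Ideal.span {-c} := by
      rw [Ideal.span_singleton_eq_span_singleton]
      exact (Associated.refl c).neg_right
    rw [e1, psK_span (f := cf d0 d1 d2 S) (-c) h1, h, Int.cast_neg, Int.cast_one, neg_one_mul]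

theorem em_int (n : ℤ) : em ((n : 𝓞 K)) = (n : ℂ) := by
  exact map_intCast (embK) n

theorem pGN (c : 𝓞 K) : pG (PN d0 d1 d2 S) oneN (Ideal.span {c}) =
    ((ph d0 d1 d2 S c : ℤ) : ℂ) * (starRingEnd ℂ) (em c) := by
  by_cases hc : IsCoprime c (cf d0 d1 d2 S)
  · rw [pG, psN hc, oneN, mul_one, em_mul, em_int, map_mul, map_intCast]
  · rw [ph_not hc, Int.cast_zero, zero_mul]
    refine pG_neg (f := cf d0 d1 d2 S) fun h => hc ?_
    rwa [Ideal.isCoprime_span_singleton_iff] at h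

/-- **The L-series of a curve with the Euler factors `ph c * c`.** -/
theorem ser7 {W : WeierstrassCurve K}
    (hW : ∀ (v : HeightOneSpectrum (𝓞 K)) (c : 𝓞 K), v.asIdeal = Ideal.span {c} → ∀ x : ℂ,
      aeval x (locPoly W v) = (1 - ((ph d0 d1 d2 S c : ℤ) : ℂ) * em c * x) *
        (1 - ((ph d0 d1 d2 S c : ℤ) : ℂ) * (starRingEnd ℂ) (em c) * x)) :
    ∃ g : ℂ → ℂ, Differentiable ℂ g ∧ (∀ s : ℂ, 3 / 2 < s.re → g s = W.LSeries s) ∧
      g 1 = LG (PN d0 d1 d2 S) oneN 1 * (starRingEnd ℂ) (LG (PN d0 d1 d2 S) oneN 1) := by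
  have hX := chrN (d0 := d0) (d1 := d1) (d2 := d2) (S := S)
  refine Ser_main (W := W) (p := pG (PN d0 d1 d2 S) oneN) hX.pG_one hX.pG_mul hX.pG_le ?_
    hX.LG_diff hX.LG_eq
  intro v x
  obtain ⟨c, hc⟩ := (IsPrincipalIdealRing.principal v.asIdeal).principal
  have hc' : v.asIdeal = Ideal.span {c} := hc
  rw [hW v c hc' x, hc', pGN, map_mul, map_intCast, Complex.conj_conj]
  ring

/-- **The primitive sum is a nonzero multiple of the value at `1`.** -/
theorem LS_eq_LG : LS d0 d1 d2 S =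
    2 * em (cf d0 d1 d2 S) / O7 * LG (PN d0 d1 d2 S) oneN 1 := by
  have hX := chrN (d0 := d0) (d1 := d1) (d2 := d2) (S := S)
  obtain ⟨ι, _, c, hc⟩ := RepsG.exists_reps (P := PN d0 d1 d2 S) (cf_ne d0 d1 d2 S) dvd_rfl
  have hne : em (cf d0 d1 d2 S) ≠ 0 := em_ne (cf_ne d0 d1 d2 S)
  have hpd : Pd (cf d0 d1 d2 S) fun x => ((ph d0 d1 d2 S x : ℤ) : ℂ) *
      ee (em x / em (cf d0 d1 d2 S)) := by
    intro x y h
    dsimp only
    rw [ph_per d0 d1 d2 S h]
    congr 1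
    refine ee_cg ?_
    obtain ⟨z, hz⟩ := h
    rw [← sub_div, ← Pool.Agent.Lib.MP_1a91b9_ntQ.em_sub, hz, em_mul, mul_div_cancel_left₀ _ hne]
    exact em_mem z
  have e1 : LS d0 d1 d2 S = ∑ s : ι ⊕ ι, ((ph d0 d1 d2 S (Sum.elim c (fun i => -c i) s) : ℤ) : ℂ) *
      ee (em (Sum.elim c (fun i => -c i) s) / em (cf d0 d1 d2 S)) := by
    rw [LS, SE]
    refine SM_sup (a := Sum.elim c fun i => -c i) (cf_ne d0 d1 d2 S) hpd ?_ ?_
    · intro x hx
      have h1 : ph d0 d1 d2 S x ≠ 0 := by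
        intro h
        apply hx
        rw [h, Int.cast_zero, zero_mul]
      have h2 := (ph_ne_iff d0 d1 d2 S).1 h1
      rcases ph_or h2 with h3 | h3
      · obtain ⟨i, hi⟩ := hc.ex x h2 h3
        exact ⟨Sum.inl i, hi⟩
      · have h4 : PN d0 d1 d2 S (-x) := by
          rw [PN, ph_neg, h3, neg_neg]
        obtain ⟨i, hi⟩ := hc.ex (-x) (PN_cop h4) h4
        refine ⟨Sum.inr i, ?_⟩
        have e : x - Sum.elim c (fun i => -c i) (Sum.inr i) = -(-x - c i) := by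
          rw [Sum.elim_inr]
          ring
        rw [e, dvd_neg]
        exact hi
    · have hpm : ∀ i j, ¬ cf d0 d1 d2 S ∣ c i - -c j := by
        intro i j h
        have h1 := ph_per d0 d1 d2 S h
        have h2 : ph d0 d1 d2 S (c i) = 1 := hc.fx i
        have h3 : ph d0 d1 d2 S (c j) = 1 := hc.fx j
        rw [ph_neg, h2, h3] at h1
        norm_num at h1
      rintro (i | i) (j | j) h
      · rw [hc.inj i j h]
      · exact absurd h (hpm i j)
      · refine absurd ?_ (hpm j i)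
        have e : c j - -c i = -(Sum.elim c (fun i => -c i) (Sum.inr i) -
            Sum.elim c (fun i => -c i) (Sum.inl j)) := by
          rw [Sum.elim_inr, Sum.elim_inl]
          ring
        rw [e, dvd_neg]
        exact h
      · have e : c i - c j = -(Sum.elim c (fun i => -c i) (Sum.inr i) -
            Sum.elim c (fun i => -c i) (Sum.inr j)) := by
          rw [Sum.elim_inr, Sum.elim_inr]
          ring
        have h5 : cf d0 d1 d2 S ∣ c i - c j := by
          rw [e, dvd_neg]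
          exact h
        rw [hc.inj i j h5]
  rw [e1, Fintype.sum_sum_type, hX.LG_one hc]
  have e2 : ∀ i, ((ph d0 d1 d2 S (Sum.elim c (fun i => -c i) (Sum.inr i)) : ℤ) : ℂ) *
      ee (em (Sum.elim c (fun i => -c i) (Sum.inr i)) / em (cf d0 d1 d2 S)) =
      ee (em (c i) / em (cf d0 d1 d2 S)) := by
    intro i
    have h3 : ph d0 d1 d2 S (c i) = 1 := hc.fx i
    rw [Sum.elim_inr, ph_neg, h3, em_neg, neg_div, ee_neg]
    push_cast
    ring
  have e3 : ∀ i, ((ph d0 d1 d2 S (Sum.elim c (fun i => -c i) (Sum.inl i)) : ℤ) : ℂ) *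
      ee (em (Sum.elim c (fun i => -c i) (Sum.inl i)) / em (cf d0 d1 d2 S)) =
      ee (em (c i) / em (cf d0 d1 d2 S)) := by
    intro i
    have h3 : ph d0 d1 d2 S (c i) = 1 := hc.fx i
    rw [Sum.elim_inl, h3]
    push_cast
    ring
  rw [Finset.sum_congr rfl fun i _ => e2 i, Finset.sum_congr rfl fun i _ => e3 i]
  have e4 : ∀ i, ee (em (c i) / em (cf d0 d1 d2 S)) =
      E1 (em (c i) / em (cf d0 d1 d2 S)) / O7 := fun i => rfl
  rw [Finset.sum_congr rfl fun i _ => e4 i, ← Finset.sum_div]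
  have e5 : ∑ i, oneN (c i) * E1 (em (c i) / em (cf d0 d1 d2 S)) =
      ∑ i, E1 (em (c i) / em (cf d0 d1 d2 S)) :=
    Finset.sum_congr rfl fun i _ => by rw [oneN, one_mul]
  rw [e5]
  field_simp
  ring

theorem LG_ne (h : LS d0 d1 d2 S ≠ 0) : LG (PN d0 d1 d2 S) oneN 1 ≠ 0 := by
  intro h1
  apply h
  rw [LS_eq_LG, h1, mul_zero]

end

end

end Pool.Agent.Lib.MP_1a91b9_ntV.L
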